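import Pool.Agent.Helper98.Gamble.Select

open MeasureTheory Set Filter Topology
open scoped NNReal BoundedContinuousFunction

set_option linter.unusedSectionVars false

namespace GamblingGame

universe u v w

section Two

variable {X : Type u} [MetricSpace X] [CompactSpace X] [MeasurableSpace X] [BorelSpace X]
variable {Y : Type v} [MetricSpace Y] [CompactSpace Y] [MeasurableSpace Y] [BorelSpace Y]
variable {Γ : X → Set (ProbabilityMeasure X)} {Λ : Y → Set (ProbabilityMeasure Y)}

lemma iter_lip2 (hΓ : IsHouse Γ) {L : ℝ≥0} {F : X → Y → ℝ} (hF : Lip2 L F) (k : ℕ) :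
    Lip2 L (fun x y => (G Γ)^[k] (fun z => F z y) x) := by
  intro x x' y y'
  have h1 := lip_le (iter_lip hΓ (hF.left y) k) x x'
  have h2 := iter_le_add hΓ (hF.left y) (hF.left y') (c := L * dist y y')
    (fun z => by simpa using hF z z y y') k x'
  have h3 : (G Γ)^[k] (fun z => F z y) x ≤ (G Γ)^[k] (fun z => F z y) x' + L * dist x x' := h1
  rw [mul_add]
  linarith

lemma exists_sel (hΓ : IsHouse Γ) {L : ℝ≥0} {F : X → Y → ℝ} (hF : Lip2 L F) (k : ℕ) :
    ∃ s : X × Y → ProbabilityMeasure X, Measurable s ∧ ∀ x y, s (x, y) ∈ Γ x ∧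
      ∫ z, (G Γ)^[k] (fun z => F z y) z ∂(s (x, y) : Measure X) =
        (G Γ)^[k + 1] (fun z => F z y) x := by
  rcases isEmpty_or_nonempty X with hX | hX
  · exact ⟨fun s => (hX.false s.1).elim, measurable_of_empty _, fun x => (hX.false x).elim⟩
  let A : Set ((X × Y) × ProbabilityMeasure X) :=
    {w | w.2 ∈ Γ w.1.1} ∩ {w | ∫ z, (G Γ)^[k] (fun z => F z w.1.2) z ∂(w.2 : Measure X) =
      (G Γ)^[k + 1] (fun z => F z w.1.2) w.1.1}
  have hA : IsClosed A := by
    apply IsClosed.inter
    · exact hΓ.isClosed_graph.preimage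
        (by fun_prop : Continuous fun w : (X × Y) × ProbabilityMeasure X => (w.1.1, w.2))
    · apply isClosed_eq
      · apply continuous_int_joint (F := fun (w : (X × Y) × ProbabilityMeasure X) (z : X) =>
          (G Γ)^[k] (fun z => F z w.1.2) z) _ continuous_snd
        exact (iter_lip2 hΓ hF k).cont.comp
          (by fun_prop : Continuous fun w : ((X × Y) × ProbabilityMeasure X) × X =>
            (w.2, w.1.1.2))
      · exact (iter_lip2 hΓ hF (k + 1)).cont.comp
          (by fun_prop : Continuous fun w : (X × Y) × ProbabilityMeasure X =>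
            (w.1.1, w.1.2))
  have hne : ∀ t : X × Y, ∃ p, (t, p) ∈ A := by
    rintro ⟨x, y⟩
    obtain ⟨p, hp, e, -⟩ := exists_G hΓ (iter_lip hΓ (hF.left y) k).continuous x
    refine ⟨p, hp, ?_⟩
    change _ = (G Γ)^[k + 1] (fun z => F z y) x
    rw [Function.iterate_succ_apply']
    exact e
  have : Nonempty (ProbabilityMeasure X) := ⟨diracProba (Classical.arbitrary X)⟩
  obtain ⟨m, π, hm, hπ, hmem⟩ := exists_selection hA hne
  exact ⟨fun t => π (m t), (measurable_of_continuous hπ).comp hm, fun x y => hmem (x, y)⟩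

lemma measurable_bindP {s : X × Y → ProbabilityMeasure X} (hs : Measurable s)
    {P : X × Y → ProbabilityMeasure X} (hP : Measurable P) :
    Measurable fun t : X × Y => bindP (s t) (fun z => P (z, t.2)) (by fun_prop) := by
  have h : Measurable fun t : X × Y =>
      (s t : Measure X).bind fun z => (P (z, t.2) : Measure X) := by
    apply Measure.measurable_of_measurable_coe
    intro A hA
    have e : ∀ t : X × Y, ((s t : Measure X).bind fun z => (P (z, t.2) : Measure X)) A =
        ∫⁻ z, (P (z, t.2) : Measure X) A ∂(s t : Measure X) := fun t =>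
      Measure.bind_apply hA (measurable_subtype_coe.comp
        (hP.comp (by fun_prop : Measurable fun z : X => (z, t.2)))).aemeasurable
    simp_rw [e]
    let K : ProbabilityTheory.Kernel (X × Y) X :=
      ⟨fun z => (s z : Measure X), measurable_subtype_coe.comp hs⟩
    have hK : ProbabilityTheory.IsMarkovKernel K := ⟨fun z => (s z).2⟩
    have hg : Measurable fun w : (X × Y) × X => (P (w.2, w.1.2) : Measure X) A :=
      (Measure.measurable_coe hA).comp (measurable_subtype_coe.comp
        (hP.comp (by fun_prop : Measurable fun w : (X × Y) × X => (w.2, w.1.2))))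
    exact Measurable.lintegral_kernel_prod_right' (κ := K) hg
  exact h.subtype_mk

/-- Optimal policies for a terminal reward and the laws of the states they reach. -/
theorem exists_policy (hΓ : IsHouse Γ) {L : ℝ≥0} {F : X → Y → ℝ} (hF : Lip2 L F) :
    ∃ (sel P : ℕ → X × Y → ProbabilityMeasure X),
      (∀ k, Measurable (sel k)) ∧ (∀ k, Measurable (P k)) ∧
      (∀ k x y, sel k (x, y) ∈ Γ x) ∧ (∀ x y, P 0 (x, y) = diracProba x) ∧
      (∀ k x y (f : X → ℝ), Continuous f → ∫ z, f z ∂(P (k + 1) (x, y) : Measure X) =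
        ∫ z, ∫ w, f w ∂(P k (z, y) : Measure X) ∂(sel k (x, y) : Measure X)) ∧
      (∀ k x y, P k (x, y) ∈ Cset Γ x) ∧
      (∀ k x y, ∫ z, F z y ∂(P k (x, y) : Measure X) = (G Γ)^[k] (fun z => F z y) x) := by
  choose sel hsel hselΓ using exists_sel hΓ hF
  let Q : ℕ → {P : X × Y → ProbabilityMeasure X // Measurable P} := fun k =>
    Nat.rec (motive := fun _ => {P : X × Y → ProbabilityMeasure X // Measurable P})
      ⟨fun s => diracProba s.1, (measurable_of_continuous continuous_diracProba).comp
        measurable_fst⟩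
      (fun k Qk => ⟨fun t => bindP (sel k t) (fun z => Qk.1 (z, t.2))
        (Qk.2.comp (by fun_prop)), measurable_bindP (hsel k) Qk.2⟩) k
  have hQ : ∀ k x y (f : X → ℝ), Continuous f → ∫ z, f z ∂((Q (k + 1)).1 (x, y) : Measure X) =
      ∫ z, ∫ w, f w ∂((Q k).1 (z, y) : Measure X) ∂(sel k (x, y) : Measure X) := by
    intro k x y f hf
    exact int_bindP (sel k (x, y)) (fun z => (Q k).1 (z, y)) ((Q k).2.comp (by fun_prop)) hf
  have hint : ∀ k y (f : X → ℝ) (p : ProbabilityMeasure X), Continuous f →
      Integrable (fun z => ∫ w, f w ∂((Q k).1 (z, y) : Measure X)) (p : Measure X) := by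
    intro k y f p hf
    obtain ⟨C, hC⟩ := exists_bound hf
    apply Integrable.of_bound (C := C)
    · apply Measurable.aestronglyMeasurable
      exact measurable_int (κ := fun z => (Q k).1 (z, y)) ((Q k).2.comp (by fun_prop))
        (g := fun _ w => f w) (hf.measurable.comp measurable_snd)
    · refine Eventually.of_forall fun z => ?_
      rw [Real.norm_eq_abs, abs_le]
      exact ⟨const_le_int hf (fun w => (abs_le.1 (hC w)).1) _,
        int_le_const hf (fun w => (abs_le.1 (hC w)).2) _⟩
  have hle : ∀ k x y (f : X → ℝ) (M : ℝ≥0), LipschitzWith M f →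
      ∫ z, f z ∂((Q k).1 (x, y) : Measure X) ≤ (G Γ)^[k] f x := by
    intro k
    induction k with
    | zero =>
      intro x y f M hf
      exact (int_dirac f x).le
    | succ k ih =>
      intro x y f M hf
      rw [hQ k x y f hf.continuous, Function.iterate_succ_apply']
      refine le_trans (integral_mono (hint k y f _ hf.continuous)
        (integrable_cont (iter_lip hΓ hf k).continuous _) (fun z => ih z y f M hf)) ?_
      exact le_G hΓ (iter_lip hΓ hf k).continuous (hselΓ k x y).1
  refine ⟨sel, fun k => (Q k).1, hsel, fun k => (Q k).2, fun k x y => (hselΓ k x y).1,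
    fun x y => rfl, hQ, ?_, ?_⟩
  · intro k x y f M hf
    exact (hle k x y f M hf).trans (iter_le_Ginf hΓ hf k x)
  · intro k
    induction k with
    | zero => intro x y; exact int_dirac _ x
    | succ k ih =>
      intro x y
      rw [hQ k x y _ (hF.left y).continuous, ← (hselΓ k x y).2]
      apply integral_congr_ae
      exact Eventually.of_forall fun z => ih z y

end Two

end GamblingGame
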