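import Mathlib

/-!
# Standard gambling games (Laraki–Renault)

Definitions used by the statement that every strongly acyclic standard gambling game has a
uniform value.
-/

open MeasureTheory Set
open scoped NNReal

namespace GamblingGame

universe u v w

section House

variable {X : Type u} [MetricSpace X] [MeasurableSpace X] [BorelSpace X]

/-- The Kantorovich–Rubinstein distance of `p` and `q` is at most `r` (dual form: the integrals of
every 1-Lipschitz function differ by at most `r`). -/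
def KRLe (p q : ProbabilityMeasure X) (r : ℝ) : Prop :=
  ∀ f : X → ℝ, LipschitzWith 1 f →
    |∫ z, f z ∂(p : Measure X) - ∫ z, f z ∂(q : Measure X)| ≤ r

/-- A leavable, non-expansive set-valued map with compact values (a gambling house).  The values
are nonempty by leavability; they are not required to be convex.  `ProbabilityMeasure X` carries
the weak-* topology. -/
structure IsHouse (Γ : X → Set (ProbabilityMeasure X)) : Prop where
  compact : ∀ x, IsCompact (Γ x)
  leavable : ∀ x, diracProba x ∈ Γ x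
  nonexpansive : ∀ x x', ∀ p ∈ Γ x, ∃ p' ∈ Γ x', KRLe p p' (dist x x')

/-- The convex hull of the set of pairs `(δ_x, p)` with `p ∈ Γ x` (finite convex combinations). -/
def mixtures (Γ : X → Set (ProbabilityMeasure X)) :
    Set (ProbabilityMeasure X × ProbabilityMeasure X) :=
  {π | ∃ (n : ℕ) (a : Fin n → ℝ≥0) (x : Fin n → X) (p : Fin n → ProbabilityMeasure X),
    ∑ i, a i = 1 ∧ (∀ i, p i ∈ Γ (x i)) ∧
    (π.1 : Measure X) = ∑ i, a i • Measure.dirac (x i) ∧
    (π.2 : Measure X) = ∑ i, a i • (p i : Measure X)}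

/-- The extension `Γ̃` of `Γ` to `Δ(X)`; its graph is the closed convex hull of the pairs
`(δ_x, p)`, `p ∈ Γ x`. -/
def extension (Γ : X → Set (ProbabilityMeasure X)) (μ : ProbabilityMeasure X) :
    Set (ProbabilityMeasure X) :=
  {ν | (μ, ν) ∈ closure (mixtures Γ)}

/-- `Γ̃^n`, with `Γ̃^0 (μ) = {μ}` and `Γ̃^{n+1} = Γ̃^n ∘ Γ̃`. -/
def iter (Γ : X → Set (ProbabilityMeasure X)) : ℕ → ProbabilityMeasure X →
    Set (ProbabilityMeasure X)
  | 0, μ => {μ}
  | n + 1, μ => ⋃ ν ∈ extension Γ μ, iter Γ n ν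

/-- `Γ^∞(x)`, the closure of the union of the sets `Γ̃^n(δ_x)`. -/
def reach (Γ : X → Set (ProbabilityMeasure X)) (x : X) : Set (ProbabilityMeasure X) :=
  closure (⋃ n, iter Γ n (diracProba x))

/-- Strong acyclicity (first player): some bounded lower semicontinuous `φ` has
`Argmax_{p ∈ Γ^∞(x)} ∫ φ dp = {δ_x}` for every `x`. -/
def StronglyAcyclicMax (Γ : X → Set (ProbabilityMeasure X)) : Prop :=
  ∃ φ : X → ℝ, (∃ C, ∀ x, |φ x| ≤ C) ∧ LowerSemicontinuous φ ∧
    ∀ x, {p ∈ reach Γ x | ∀ q ∈ reach Γ x,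
      ∫ z, φ z ∂(q : Measure X) ≤ ∫ z, φ z ∂(p : Measure X)} = {diracProba x}

/-- Strong acyclicity (second player): some bounded upper semicontinuous `ψ` has
`Argmin_{p ∈ Γ^∞(x)} ∫ ψ dp = {δ_x}` for every `x`. -/
def StronglyAcyclicMin (Γ : X → Set (ProbabilityMeasure X)) : Prop :=
  ∃ ψ : X → ℝ, (∃ C, ∀ x, |ψ x| ≤ C) ∧ UpperSemicontinuous ψ ∧
    ∀ x, {p ∈ reach Γ x | ∀ q ∈ reach Γ x,
      ∫ z, ψ z ∂(p : Measure X) ≤ ∫ z, ψ z ∂(q : Measure X)} = {diracProba x}

end House

section Play

variable {X : Type u} {Y : Type v}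
variable [MeasurableSpace X] [MeasurableSpace Y]

/-- What is recorded at one stage of the play: the state and the two chosen measures. -/
abbrev Stage (X : Type u) (Y : Type v) [MeasurableSpace X] [MeasurableSpace Y] :=
  (X × Y) × (ProbabilityMeasure X × ProbabilityMeasure Y)

/-- A rule choosing, at stage `t + 1`, an element of `Δ(Z)` from the records of the `t` past
stages and the current state. -/
abbrev Rule (X : Type u) (Y : Type v) (Z : Type w) [MeasurableSpace X] [MeasurableSpace Y]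
    [MeasurableSpace Z] :=
  (t : ℕ) → (Fin t → Stage X Y) → X × Y → ProbabilityMeasure Z

/-- Strategies of Player 1: measurable rules with values in `Γ (x_t)`. -/
def IsStrategy₁ (Γ : X → Set (ProbabilityMeasure X)) (σ : Rule X Y X) : Prop :=
  (∀ t h s, σ t h s ∈ Γ s.1) ∧
    ∀ t, Measurable fun z : (Fin t → Stage X Y) × (X × Y) => σ t z.1 z.2

/-- Strategies of Player 2: measurable rules with values in `Λ (y_t)`. -/
def IsStrategy₂ (Λ : Y → Set (ProbabilityMeasure Y)) (τ : Rule X Y Y) : Prop :=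
  (∀ t h s, τ t h s ∈ Λ s.2) ∧
    ∀ t, Measurable fun z : (Fin t → Stage X Y) × (X × Y) => τ t z.1 z.2

/-- Expected sum of the payoffs of the next `m` stages after the `t` past stages `h`, with current
state `s`: the next state is drawn from the product `σ t h s ⊗ τ t h s`. -/
noncomputable def total (u : X × Y → ℝ) (σ : Rule X Y X) (τ : Rule X Y Y) :
    ℕ → (t : ℕ) → (Fin t → Stage X Y) → X × Y → ℝ
  | 0, _, _, _ => 0
  | m + 1, t, h, s =>
    u s + ∫ z, total u σ τ m (t + 1)
        (Fin.snoc (α := fun _ => Stage X Y) h (s, (σ t h s, τ t h s))) z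
      ∂((σ t h s : Measure X).prod (τ t h s : Measure Y))

/-- The `n`-stage payoff `γ_n(s, σ, τ)`: the expectation of the average of the first `n` stage
payoffs. -/
noncomputable def avgPayoff (u : X × Y → ℝ) (n : ℕ) (s : X × Y) (σ : Rule X Y X)
    (τ : Rule X Y Y) : ℝ :=
  (1 / (n : ℝ)) * total u σ τ n 0 Fin.elim0 s

/-- `w` is the uniform value of the game at the initial state `s`. -/
def IsUniformValue (u : X × Y → ℝ) (Γ : X → Set (ProbabilityMeasure X))
    (Λ : Y → Set (ProbabilityMeasure Y)) (s : X × Y) (w : ℝ) : Prop :=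
  ∀ ε > 0, ∃ σ' : Rule X Y X, IsStrategy₁ Γ σ' ∧ ∃ τ' : Rule X Y Y, IsStrategy₂ Λ τ' ∧
    ∃ N : ℕ, ∀ n ≥ N,
      (∀ τ : Rule X Y Y, IsStrategy₂ Λ τ → w - ε ≤ avgPayoff u n s σ' τ) ∧
      (∀ σ : Rule X Y X, IsStrategy₁ Γ σ → avgPayoff u n s σ τ' ≤ w + ε)

end Play

end GamblingGame
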