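import Pool.Agent.Helper98.Gamble.Limit

open MeasureTheory Set Filter Topology
open scoped NNReal BoundedContinuousFunction

set_option linter.unusedSectionVars false

namespace GamblingGame

universe u v w

section Two

variable {X : Type u} [MetricSpace X] [CompactSpace X] [MeasurableSpace X] [BorelSpace X]
variable {Y : Type v} [MetricSpace Y] [CompactSpace Y] [MeasurableSpace Y] [BorelSpace Y]
variable {Γ : X → Set (ProbabilityMeasure X)} {Λ : Y → Set (ProbabilityMeasure Y)}

/-- The defect of excessivity. -/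
noncomputable def defect (Γ : X → Set (ProbabilityMeasure X)) (f : X → Y → ℝ) (x : X) (y : Y) :
    ℝ :=
  G Γ (fun z => f z y) x - f x y

/-- One half of the fixed point equation. -/
def Hyp (Γ : X → Set (ProbabilityMeasure X)) (Λ : Y → Set (ProbabilityMeasure Y))
    (f : X → Y → ℝ) : Prop :=
  ∀ x y, ∀ p ∈ Γ x, ∃ q ∈ Λ y, ∫ z, ∫ w, f z w ∂(q : Measure Y) ∂(p : Measure X) ≤ f x y

lemma sw_sw (f : X → Y → ℝ) : sw (sw f) = f := by
  funext x y; simp [sw]

lemma G_lip2 (hΓ : IsHouse Γ) {L : ℝ≥0} {f : X → Y → ℝ} (h : Lip2 L f) :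
    Lip2 L (fun x y => G Γ (fun z => f z y) x) := by
  intro x x' y y'
  have h1 := lip_le (G_lip hΓ (h.left y)) x x'
  have h2 := G_le_add hΓ (h.left y).continuous (h.left y').continuous (c := L * dist y y')
    (fun z => by simpa using h z z y y') x'
  have h3 : G Γ (fun z => f z y) x ≤ G Γ (fun z => f z y) x' + L * dist x x' := h1
  rw [mul_add]
  linarith

lemma cont_defect (hΓ : IsHouse Γ) {L : ℝ≥0} {f : X → Y → ℝ} (h : Lip2 L f) :
    Continuous (Function.uncurry (defect Γ f)) :=
  (G_lip2 hΓ h).cont.sub h.cont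

lemma step_one (hΓ : IsHouse Γ) (hΛ : IsHouse Λ) {L : ℝ≥0} {f : X → Y → ℝ} (h : Lip2 L f)
    (H : Hyp Γ Λ f) (x : X) (y : Y) :
    ∃ p ∈ Γ x, ∫ z, f z y ∂(p : Measure X) = f x y + defect Γ f x y ∧
      defect Γ f x y ≤ ∫ z, defect Λ (sw f) y z ∂(p : Measure X) := by
  obtain ⟨p, hp, e, -⟩ := exists_G hΓ (h.left y).continuous x
  refine ⟨p, hp, by rw [defect, e]; ring, ?_⟩
  obtain ⟨q, hq, hle⟩ := H x y p hp
  have hdc : Continuous fun z => defect Λ (sw f) y z :=
    (cont_defect hΛ h.sw).comp (by fun_prop : Continuous fun z => (y, z))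
  have h1 : ∫ z, (f z y - ∫ w, f z w ∂(q : Measure Y)) ∂(p : Measure X) ≤
      ∫ z, defect Λ (sw f) y z ∂(p : Measure X) := by
    apply int_mono ((h.left y).continuous.sub (h.int_right q).continuous) hdc
    intro z
    have h2 := le_G hΛ (f := fun w => sw f w z) (h.sw.left z).continuous hq
    simp only [sw] at h2
    rw [integral_neg] at h2
    change f z y - ∫ w, f z w ∂(q : Measure Y) ≤ _
    simp only [defect, sw]
    linarith
  rw [integral_sub (integrable_cont (h.left y).continuous _)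
    (integrable_cont (h.int_right q).continuous _)] at h1
  rw [defect, ← e]
  linarith

lemma mem_Cset_of_mem (hΓ : IsHouse Γ) {x : X} {p : ProbabilityMeasure X} (hp : p ∈ Γ x) :
    p ∈ Cset Γ x := by
  intro f L hf
  exact (le_G hΓ hf.continuous hp).trans (iter_le_Ginf hΓ hf 1 x)

/-- The limit function is excessive and depressive. -/
theorem excessive (hΓ : IsHouse Γ) (hΛ : IsHouse Λ) (hac : StronglyAcyclicMax Γ) {L : ℝ≥0}
    {f : X → Y → ℝ} (h : Lip2 L f) (H : Hyp Γ Λ f) (H' : Hyp Λ Γ (sw f)) :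
    (∀ x y, defect Γ f x y ≤ 0) ∧ (∀ y x, defect Λ (sw f) y x ≤ 0) := by
  rcases isEmpty_or_nonempty X with hX | hX
  · exact ⟨fun x => (hX.false x).elim, fun _ x => (hX.false x).elim⟩
  rcases isEmpty_or_nonempty Y with hY | hY
  · exact ⟨fun _ y => (hY.false y).elim, fun y => (hY.false y).elim⟩
  have hc := cont_defect hΓ h
  have hc' := cont_defect hΛ h.sw
  obtain ⟨⟨x₁, y₁⟩, -, hmax⟩ := (isCompact_univ (X := X × Y)).exists_isMaxOn univ_nonempty
    hc.continuousOn
  obtain ⟨⟨y₂, x₂⟩, -, hmax'⟩ := (isCompact_univ (X := Y × X)).exists_isMaxOn univ_nonempty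
    hc'.continuousOn
  set D := defect Γ f x₁ y₁ with hD
  set D' := defect Λ (sw f) y₂ x₂ with hD'
  have hm : ∀ x y, defect Γ f x y ≤ D := fun x y => hmax (mem_univ (x, y))
  have hm' : ∀ y x, defect Λ (sw f) y x ≤ D' := fun y x => hmax' (mem_univ (y, x))
  have hcy : ∀ y, Continuous fun z => defect Λ (sw f) y z := fun y =>
    hc'.comp (by fun_prop : Continuous fun z => (y, z))
  have hcx : ∀ x, Continuous fun w => defect Γ f x w := fun x =>
    hc.comp (by fun_prop : Continuous fun w => (x, w))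
  have h1 : D ≤ D' := by
    obtain ⟨p, hp, -, hle⟩ := step_one hΓ hΛ h H x₁ y₁
    exact hle.trans (int_le_const (hcy y₁) (hm' y₁) _)
  have h2 : D' ≤ D := by
    obtain ⟨q, hq, -, hle⟩ := step_one hΛ hΓ h.sw H' y₂ x₂
    rw [sw_sw] at hle
    exact hle.trans (int_le_const (hcx x₂) (hm x₂) _)
  have hDD : D' = D := le_antisymm h2 h1
  suffices hD0 : D ≤ 0 from ⟨fun x y => (hm x y).trans hD0, fun y x => (hm' y x).trans
    (hDD.le.trans hD0)⟩
  by_contra hpos
  push Not at hpos
  have hL1 : (0 : ℝ) < L + 1 := by positivity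
  obtain ⟨Φ, M, hΦ, κ, hκ, hstr⟩ := exists_strict hΓ hac (η := D / (L + 1)) (by positivity)
  let S : Set (X × Y) := {z | defect Γ f z.1 z.2 = D}
  have hS : IsCompact S := (isClosed_eq hc continuous_const).isCompact
  have hSne : S.Nonempty := ⟨(x₁, y₁), rfl⟩
  obtain ⟨⟨x, y⟩, hxy, hmin⟩ := hS.exists_isMinOn hSne
    ((hΦ.continuous.comp continuous_fst).continuousOn)
  have hxy' : defect Γ f x y = D := hxy
  obtain ⟨p, hp, hint, hle⟩ := step_one hΓ hΛ h H x y
  rw [hxy'] at hint hle
  have hpC := mem_Cset_of_mem hΓ hp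
  have hdisp : D / (L + 1) ≤ ∫ z, dist x z ∂(p : Measure X) := by
    have hdc : Continuous fun z => dist x z := by fun_prop
    have a1 : ∫ z, f z y ∂(p : Measure X) ≤ ∫ z, ((L : ℝ) * dist x z) ∂(p : Measure X) + f x y := by
      apply int_le_add (h.left y).continuous (by fun_prop)
      intro z
      have := h z x y y
      rw [dist_self, add_zero, dist_comm] at this
      linarith
    rw [integral_const_mul, hint] at a1
    have a2 : 0 ≤ ∫ z, dist x z ∂(p : Measure X) := const_le_int hdc (fun z => dist_nonneg) _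
    rw [div_le_iff₀ hL1]
    nlinarith
  have hΦlt := (hstr x p hpC).2 hdisp
  have hex : ∃ z, defect Λ (sw f) y z = D ∧ Φ z < Φ x := by
    by_contra hcon
    push Not at hcon
    have hae : ∀ᵐ z ∂(p : Measure X), defect Λ (sw f) y z = D := by
      have hnn : 0 ≤ fun z => D - defect Λ (sw f) y z := by
        intro z
        have := hm' y z
        rw [hDD] at this
        simpa using this
      have hI : Integrable (fun z => D - defect Λ (sw f) y z) (p : Measure X) :=
        integrable_cont (continuous_const.sub (hcy y)) _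
      have h0 : ∫ z, (D - defect Λ (sw f) y z) ∂(p : Measure X) = 0 := by
        apply le_antisymm _ (integral_nonneg hnn)
        rw [integral_sub (integrable_const _) (integrable_cont (hcy y) _)]
        simp only [integral_const, probReal_univ, smul_eq_mul, one_mul]
        linarith
      rw [integral_eq_zero_iff_of_nonneg hnn hI] at h0
      filter_upwards [h0] with z hz
      have hz' : D - defect Λ (sw f) y z = 0 := hz
      linarith
    have : Φ x ≤ ∫ z, Φ z ∂(p : Measure X) := by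
      have h3 : ∫ _z, Φ x ∂(p : Measure X) ≤ ∫ z, Φ z ∂(p : Measure X) := by
        apply integral_mono_ae (integrable_const _) (integrable_cont hΦ.continuous _)
        filter_upwards [hae] with z hz
        exact hcon z hz
      simpa using h3
    linarith
  obtain ⟨z, hz, hΦz⟩ := hex
  obtain ⟨q, hq, -, hle2⟩ := step_one hΛ hΓ h.sw H' y z
  rw [sw_sw, hz] at hle2
  obtain ⟨w₀, -, hw₀⟩ := (isCompact_univ (X := Y)).exists_isMaxOn univ_nonempty
    (hcx z).continuousOn
  have hw : defect Γ f z w₀ = D := by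
    apply le_antisymm (hm z w₀)
    exact hle2.trans (int_le_const (hcx z) (fun w => hw₀ (mem_univ w)) _)
  have hcontra : Φ x ≤ Φ z := hmin (show (z, w₀) ∈ S from hw)
  linarith

/-- The properties of the limit value that are used in the construction of strategies. -/
structure ValueData (Γ : X → Set (ProbabilityMeasure X)) (Λ : Y → Set (ProbabilityMeasure Y))
    (u v : X → Y → ℝ) (L : ℝ≥0) (K : ℝ) : Prop where
  lip : Lip2 L v
  bdd : ∀ x y, |v x y| ≤ K
  exc : ∀ x y, ∀ p ∈ Γ x, ∫ z, v z y ∂(p : Measure X) ≤ v x y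
  dep : ∀ x y, ∀ q ∈ Λ y, v x y ≤ ∫ w, v x w ∂(q : Measure Y)
  reach : ∀ c : ℝ, 0 ≤ c → ∀ x y, (1 + c) * v x y ≤ Ginf Γ (fun z => u z y + c * v z y) x

theorem exists_value (hΓ : IsHouse Γ) (hΛ : IsHouse Λ) (hac : StronglyAcyclicMax Γ)
    {u : X → Y → ℝ} {L : ℝ≥0} (hu : Lip2 L u) {K : ℝ}
    (hK : ∀ x y, |u x y| ≤ K) (hK0 : 0 ≤ K) :
    ∃ v : X → Y → ℝ, ValueData Γ Λ u v L K ∧ ValueData Λ Γ (sw u) (sw v) L K := by
  obtain ⟨v, hv, hvK, hfix, hr1, hr2⟩ := exists_limit hΓ hΛ hu hK hK0
  have H : Hyp Γ Λ v := by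
    intro x y p hp
    obtain ⟨q, hq, hle⟩ := valOp_ge hΓ hΛ hv y hp
    rw [hfix] at hle
    exact ⟨q, hq, hle⟩
  have H' : Hyp Λ Γ (sw v) := by
    intro y x q hq
    obtain ⟨p, hp, hle⟩ := valOp_le hΓ hΛ hv x hq
    rw [hfix] at hle
    refine ⟨p, hp, ?_⟩
    simp only [sw]
    simp_rw [integral_neg]
    rw [← hv.fubini]
    linarith
  obtain ⟨hE, hD⟩ := excessive hΓ hΛ hac hv H H'
  have e1 : ∀ x y, ∀ p ∈ Γ x, ∫ z, v z y ∂(p : Measure X) ≤ v x y := by
    intro x y p hp
    have h1 := le_G hΓ (hv.left y).continuous hp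
    have h2 := hE x y
    simp only [defect] at h2
    linarith
  have e2 : ∀ y x, ∀ q ∈ Λ y, ∫ w, sw v w x ∂(q : Measure Y) ≤ sw v y x := by
    intro y x q hq
    have h1 := le_G hΛ (hv.sw.left x).continuous hq
    have h2 := hD y x
    simp only [defect] at h2
    linarith
  refine ⟨v, ⟨hv, hvK, e1, ?_, hr1⟩, ⟨hv.sw, ?_, e2, ?_, hr2⟩⟩
  · intro x y q hq
    have := e2 y x q hq
    simp only [sw] at this
    rw [integral_neg] at this
    linarith
  · intro y x
    simp only [sw, abs_neg]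
    exact hvK x y
  · intro y x p hp
    have := e1 x y p hp
    simp only [sw]
    rw [integral_neg]
    linarith

end Two

end GamblingGame
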