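import Pool.Agent.Helper98.Gamble.Main

open MeasureTheory Set Filter Topology
open scoped NNReal BoundedContinuousFunction

set_option linter.unusedSectionVars false

namespace GamblingGame

universe u v w

section Swap

variable {X : Type u} {Y : Type v} [MeasurableSpace X] [MeasurableSpace Y]

/-- Exchange the roles of the players in a record. -/
def swStage (a : Stage X Y) : Stage Y X := (a.1.swap, a.2.swap)

lemma measurable_swStage : Measurable (swStage (X := X) (Y := Y)) :=
  (measurable_swap.comp measurable_fst).prodMk (measurable_swap.comp measurable_snd)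

/-- Exchange the roles of the players in a rule. -/
def swRule {Z : Type w} [MeasurableSpace Z] (σ : Rule X Y Z) : Rule Y X Z :=
  fun t h s => σ t (fun i => swStage (h i)) s.swap

lemma swRule_meas {Z : Type w} [MeasurableSpace Z] {σ : Rule X Y Z}
    (hσ : ∀ t, Measurable fun z : (Fin t → Stage X Y) × (X × Y) => σ t z.1 z.2) (t : ℕ) :
    Measurable fun z : (Fin t → Stage Y X) × (Y × X) => swRule σ t z.1 z.2 := by
  have h1 : Measurable fun z : (Fin t → Stage Y X) × (Y × X) =>
      (((fun i => swStage (z.1 i)) : Fin t → Stage X Y), z.2.swap) := by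
    apply Measurable.prodMk
    · exact measurable_pi_lambda _ fun i =>
        measurable_swStage.comp ((measurable_pi_apply i).comp measurable_fst)
    · exact measurable_swap.comp measurable_snd
  exact (hσ t).comp h1

lemma sw_snoc (t : ℕ) (h : Fin t → Stage X Y) (a : Stage X Y) :
    (fun i => swStage ((Fin.snoc (α := fun _ => Stage X Y) h a : Fin (t + 1) → Stage X Y) i)) =
      Fin.snoc (α := fun _ => Stage Y X) (fun i => swStage (h i)) (swStage a) := by
  funext i
  refine Fin.lastCases ?_ (fun j => ?_) i <;> simp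

lemma swStage_swStage (a : Stage X Y) : swStage (swStage a) = a := by
  simp [swStage]

lemma total_swap (u : X × Y → ℝ) (σ : Rule X Y X) (τ : Rule X Y Y) (m t : ℕ)
    (h : Fin t → Stage X Y) (s : X × Y) :
    total (fun s => -u s.swap) (swRule τ) (swRule σ) m t (fun i => swStage (h i)) s.swap =
      -total u σ τ m t h s := by
  induction m generalizing t h s with
  | zero => simp [total]
  | succ m ih =>
    simp only [total]
    have e1 : swRule σ t (fun i => swStage (h i)) s.swap = σ t h s := by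
      simp [swRule, swStage_swStage]
    have e2 : swRule τ t (fun i => swStage (h i)) s.swap = τ t h s := by
      simp [swRule, swStage_swStage]
    rw [e1, e2, neg_add, ← integral_neg, Prod.swap_swap]
    congr 1
    rw [← integral_prod_swap]
    apply integral_congr_ae
    refine Eventually.of_forall fun z => ?_
    have := ih (t + 1) (Fin.snoc (α := fun _ => Stage X Y) h (s, (σ t h s, τ t h s))) z
    rw [sw_snoc] at this
    exact this

lemma total_diff {u u' : X × Y → ℝ} (hu : Measurable u) (hu' : Measurable u') {K K' δ : ℝ}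
    (hK : ∀ s, |u s| ≤ K) (hK' : ∀ s, |u' s| ≤ K') (hδ : ∀ s, u s ≤ u' s + δ)
    {σ : Rule X Y X} {τ : Rule X Y Y}
    (hσ : ∀ t, Measurable fun z : (Fin t → Stage X Y) × (X × Y) => σ t z.1 z.2)
    (hτ : ∀ t, Measurable fun z : (Fin t → Stage X Y) × (X × Y) => τ t z.1 z.2) (m t : ℕ)
    (h : Fin t → Stage X Y) (s : X × Y) :
    total u σ τ m t h s ≤ total u' σ τ m t h s + m * δ := by
  induction m generalizing t h s with
  | zero => simp [total]
  | succ m ih =>
    simp only [total]
    have hint : ∀ {f : X × Y → ℝ} {C : ℝ}, Measurable f → (∀ s, |f s| ≤ C) →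
        Integrable (fun z => total f σ τ m (t + 1)
          (Fin.snoc (α := fun _ => Stage X Y) h (s, (σ t h s, τ t h s))) z)
          ((σ t h s : Measure X).prod (τ t h s : Measure Y)) := by
      intro f C hf hC
      apply Integrable.of_bound (C := m * C)
      · apply Measurable.aestronglyMeasurable
        exact (measurable_total hf hσ hτ m (t + 1)).comp (by fun_prop :
          Measurable fun z : X × Y => ((Fin.snoc (α := fun _ => Stage X Y) h
            (s, (σ t h s, τ t h s)) : Fin (t + 1) → Stage X Y), z))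
      · exact Eventually.of_forall fun z => total_abs hC _ _ _ _
    have h1 := integral_mono (hint hu hK) ((hint hu' hK').add (integrable_const (m * δ)))
      (fun z => ih (t + 1) _ z)
    simp only [Pi.add_apply] at h1
    rw [integral_add (hint hu' hK') (integrable_const _)] at h1
    simp only [integral_const, probReal_univ, smul_eq_mul, one_mul] at h1
    have h2 := hδ s
    push_cast
    linarith

end Swap

section Two

variable {X : Type u} [MetricSpace X] [CompactSpace X] [MeasurableSpace X] [BorelSpace X]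
variable {Y : Type v} [MetricSpace Y] [CompactSpace Y] [MeasurableSpace Y] [BorelSpace Y]
variable {Γ : X → Set (ProbabilityMeasure X)} {Λ : Y → Set (ProbabilityMeasure Y)}

/-- Both guarantees, Lipschitz payoff. -/
theorem lipschitz_case (hΓ : IsHouse Γ) (hΛ : IsHouse Λ) (hac : StronglyAcyclicMax Γ)
    (hac' : StronglyAcyclicMax Λ) {u : X → Y → ℝ} {L : ℝ≥0} {K : ℝ} (hu : Lip2 L u)
    (huK : ∀ x y, |u x y| ≤ K) (hK0 : 0 ≤ K) :
    ∃ v : X → Y → ℝ, ∀ ε > 0,
      (∃ σ' : Rule X Y X, IsStrategy₁ Γ σ' ∧ ∃ N : ℕ, ∀ n ≥ N, ∀ (s : X × Y) (τ : Rule X Y Y),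
        IsStrategy₂ Λ τ → v s.1 s.2 - ε ≤ avgPayoff (Function.uncurry u) n s σ' τ) ∧
      (∃ τ' : Rule X Y Y, IsStrategy₂ Λ τ' ∧ ∃ N : ℕ, ∀ n ≥ N, ∀ (s : X × Y) (σ : Rule X Y X),
        IsStrategy₁ Γ σ → avgPayoff (Function.uncurry u) n s σ τ' ≤ v s.1 s.2 + ε) := by
  obtain ⟨v, hV, hV'⟩ := exists_value hΓ hΛ hac hu huK hK0
  refine ⟨v, fun ε hε => ⟨?_, ?_⟩⟩
  · obtain ⟨σ', hσ', N, hN⟩ := guarantee hΓ hac hu huK hK0 hV (by positivity : 0 < ε / 3)
    refine ⟨σ', hσ', N, fun n hn s τ hτ => ?_⟩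
    have := hN n hn s τ hτ
    linarith
  · obtain ⟨τ', hτ', N, hN⟩ := guarantee hΛ hac' hu.sw (K := K)
      (fun y x => by simpa [sw] using huK x y) hK0 hV' (by positivity : 0 < ε / 3)
    refine ⟨swRule τ', ⟨fun t h s => hτ'.1 t (fun i => swStage (h i)) s.swap,
      swRule_meas hτ'.2⟩, N,
      fun n hn s σ hσ => ?_⟩
    have h1 := hN n hn s.swap (swRule σ) ⟨fun t h s => hσ.1 t (fun i => swStage (h i)) s.swap,
      swRule_meas hσ.2⟩
    have h2 := total_swap (Function.uncurry u) σ (swRule τ') n 0 Fin.elim0 s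
    have h3 : swRule (swRule τ') = τ' := by
      funext t h s; simp [swRule, swStage_swStage]
    rw [h3] at h2
    have h4 : (fun i => swStage ((Fin.elim0 : Fin 0 → Stage X Y) i)) = Fin.elim0 := by
      funext i; exact i.elim0
    rw [h4] at h2
    have h5 : (fun s : Y × X => -Function.uncurry u s.swap) = Function.uncurry (sw u) := by
      funext s; rfl
    rw [h5] at h2
    rw [avgPayoff, h2] at h1
    rw [avgPayoff]
    simp only [sw, Prod.fst_swap, Prod.snd_swap] at h1
    linarith

/-- Uniform approximation by Lipschitz payoffs. -/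
lemma exists_lip_approx {u : X × Y → ℝ} (hu : Continuous u) {δ : ℝ} (hδ : 0 < δ) :
    ∃ (L : ℝ≥0) (u' : X → Y → ℝ), Lip2 L u' ∧ ∀ s, |u s - u' s.1 s.2| ≤ δ := by
  obtain ⟨C, hC⟩ := exists_bound hu
  have hmono : Monotone fun n => approx u n := by
    apply monotone_nat_of_le_succ
    intro n z
    apply le_approx
    intro w
    refine (ciInf_le (approx_bdd hC n z) w).trans ?_
    have : (n : ℝ) * dist z w ≤ ((n + 1 : ℕ) : ℝ) * dist z w :=
      mul_le_mul_of_nonneg_right (by push_cast; linarith) dist_nonneg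
    linarith
  have hunif : TendstoUniformly (fun n => approx u n) u atTop :=
    hmono.tendstoUniformly_of_forall_tendsto (fun n => (approx_lip hC n).continuous) hu
      (fun z => approx_tendsto hC hu.lowerSemicontinuous z)
  rw [Metric.tendstoUniformly_iff] at hunif
  obtain ⟨n, hn⟩ := (hunif δ hδ).exists
  refine ⟨n, fun x y => approx u n (x, y), ?_, ?_⟩
  · intro x x' y y'
    refine (lip_le (approx_lip hC n) (x, y) (x', y')).trans ?_
    have h1 : dist (x, y) (x', y') ≤ dist x x' + dist y y' := by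
      rw [Prod.dist_eq]
      exact max_le (le_add_of_nonneg_right dist_nonneg) (le_add_of_nonneg_left dist_nonneg)
    have h2 := mul_le_mul_of_nonneg_left h1 (NNReal.coe_nonneg (n : ℝ≥0))
    linarith
  · rintro ⟨x, y⟩
    have := hn (x, y)
    rw [Real.dist_eq] at this
    exact this.le

/-- The rule of never moving. -/
noncomputable def stay₂ (X : Type u) (Y : Type v) [MeasurableSpace X] [MeasurableSpace Y]
    [TopologicalSpace Y] [OpensMeasurableSpace Y] : Rule X Y Y := fun _ _ s => diracProba s.2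

theorem uniform_value {u : X × Y → ℝ} (hu : Continuous u) (hΓ : IsHouse Γ) (hΛ : IsHouse Λ)
    (hac : StronglyAcyclicMax Γ) (hac' : StronglyAcyclicMin Λ) (s : X × Y) :
    ∃ w, IsUniformValue u Γ Λ s w := by
  -- Argmin to Argmax
  have hacΛ : StronglyAcyclicMax Λ := by
    obtain ⟨ψ, ⟨C, hC⟩, husc, harg⟩ := hac'
    refine ⟨fun y => -ψ y, ⟨C, fun y => by simpa using hC y⟩, ?_, fun y => ?_⟩
    · intro y a ha
      have := husc y (-a) (by linarith)
      filter_upwards [this] with z hz
      linarith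
    · rw [← harg y]
      ext p
      simp only [integral_neg, neg_le_neg_iff]
  obtain ⟨C, hC⟩ := exists_bound hu
  have hC0 : 0 ≤ C := (abs_nonneg _).trans (hC s)
  -- the guaranteed numbers
  let S : Set ℝ := {r | ∃ σ' : Rule X Y X, IsStrategy₁ Γ σ' ∧ ∃ N : ℕ, ∀ n ≥ N,
    ∀ τ : Rule X Y Y, IsStrategy₂ Λ τ → r ≤ avgPayoff u n s σ' τ}
  have hstay : IsStrategy₂ Λ (stay₂ X Y) :=
    ⟨fun t h s => hΛ.leavable s.2, fun t =>
      (measurable_of_continuous continuous_diracProba).comp (by fun_prop)⟩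
  have havg : ∀ (n : ℕ) (σ : Rule X Y X) (τ : Rule X Y Y), |avgPayoff u n s σ τ| ≤ C := by
    intro n σ τ
    rw [avgPayoff, abs_mul]
    have h1 := total_abs hC n 0 Fin.elim0 s (σ := σ) (τ := τ)
    rcases Nat.eq_zero_or_pos n with rfl | hn
    · simpa using hC0
    · have hn' : (0 : ℝ) < n := by exact_mod_cast hn
      rw [abs_of_nonneg (by positivity : (0 : ℝ) ≤ 1 / n), one_div, inv_mul_le_iff₀ hn']
      exact h1
  have hSb : BddAbove S := by
    refine ⟨C, ?_⟩
    rintro r ⟨σ', hσ', N, hN⟩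
    exact (hN N le_rfl _ hstay).trans ((le_abs_self _).trans (havg _ _ _))
  -- comparison of payoffs
  have hcomp : ∀ {u₁ u₂ : X × Y → ℝ} {δ : ℝ}, Continuous u₁ → Continuous u₂ →
      (∀ s, u₁ s ≤ u₂ s + δ) → ∀ (σ : Rule X Y X) (τ : Rule X Y Y), IsStrategy₁ Γ σ →
      IsStrategy₂ Λ τ → ∀ n ≥ 1, avgPayoff u₁ n s σ τ ≤ avgPayoff u₂ n s σ τ + δ := by
    intro u₁ u₂ δ h1 h2 hδ σ τ hσ hτ n hn
    obtain ⟨C₁, hC₁⟩ := exists_bound h1
    obtain ⟨C₂, hC₂⟩ := exists_bound h2
    have := total_diff h1.measurable h2.measurable hC₁ hC₂ hδ hσ.2 hτ.2 n 0 Fin.elim0 s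
    have hn' : (0 : ℝ) < n := by exact_mod_cast hn
    rw [avgPayoff, avgPayoff, one_div, inv_mul_le_iff₀ hn', mul_add, ← mul_assoc,
      mul_inv_cancel₀ hn'.ne', one_mul]
    exact this
  have key : ∀ ε > 0, ∃ r ∈ S, ∃ τ' : Rule X Y Y, IsStrategy₂ Λ τ' ∧ ∃ N : ℕ, ∀ n ≥ N,
      ∀ σ : Rule X Y X, IsStrategy₁ Γ σ → avgPayoff u n s σ τ' ≤ r + ε := by
    intro ε hε
    obtain ⟨L, u', hu', hclose⟩ := exists_lip_approx hu (by positivity : 0 < ε / 4)
    obtain ⟨K, hK⟩ := exists_bound hu'.cont
    have hK0 : 0 ≤ K := (abs_nonneg _).trans (hK s)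
    obtain ⟨v, hv⟩ := lipschitz_case hΓ hΛ hac hacΛ hu' (fun x y => hK (x, y)) hK0
    obtain ⟨⟨σ', hσ', N, hN⟩, ⟨τ', hτ', N', hN'⟩⟩ := hv (ε / 4) (by positivity)
    refine ⟨v s.1 s.2 - ε / 2, ⟨σ', hσ', max N 1, fun n hn τ hτ => ?_⟩, τ', hτ', max N' 1,
      fun n hn σ hσ => ?_⟩
    · have h1 := hN n ((le_max_left _ _).trans hn) s τ hτ
      have h2 := hcomp (u₁ := Function.uncurry u') (u₂ := u) (δ := ε / 4) hu'.cont hu
        (fun s => by
          have := (abs_le.1 (hclose s)).1
          change u' s.1 s.2 ≤ _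
          linarith) σ' τ hσ' hτ n ((le_max_right _ _).trans hn)
      linarith
    · have h1 := hN' n ((le_max_left _ _).trans hn) s σ hσ
      have h2 := hcomp (u₁ := u) (u₂ := Function.uncurry u') (δ := ε / 4) hu hu'.cont
        (fun s => by
          have := (abs_le.1 (hclose s)).2
          change _ ≤ u' s.1 s.2 + _
          linarith) σ τ' hσ hτ' n ((le_max_right _ _).trans hn)
      linarith
  have hSne : S.Nonempty := by
    obtain ⟨r, hr, -⟩ := key 1 one_pos
    exact ⟨r, hr⟩
  refine ⟨sSup S, fun ε hε => ?_⟩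
  obtain ⟨r, ⟨σ', hσ', N, hN⟩, hrlt⟩ := exists_lt_of_lt_csSup hSne
    (show sSup S - ε < sSup S by linarith)
  obtain ⟨r', hr', τ', hτ', N', hN'⟩ := key ε hε
  refine ⟨σ', hσ', τ', hτ', max N N', fun n hn => ⟨fun τ hτ => ?_, fun σ hσ => ?_⟩⟩
  · have := hN n ((le_max_left _ _).trans hn) τ hτ
    linarith
  · have h1 := hN' n ((le_max_right _ _).trans hn) σ hσ
    have h2 := le_csSup hSb hr'
    linarith

end Two

end GamblingGame
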