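import Pool.Agent.Helper98.Gamble.Play

open MeasureTheory Set Filter Topology
open scoped NNReal BoundedContinuousFunction

set_option linter.unusedSectionVars false

namespace GamblingGame

universe u v w

section Two

variable {X : Type u} [MetricSpace X] [CompactSpace X] [MeasurableSpace X] [BorelSpace X]
variable {Y : Type v} [MetricSpace Y] [CompactSpace Y] [MeasurableSpace Y] [BorelSpace Y]
variable {Γ : X → Set (ProbabilityMeasure X)} {Λ : Y → Set (ProbabilityMeasure Y)}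

/-- One uniform block length. -/
lemma exists_length (hΓ : IsHouse Γ) {u v : X → Y → ℝ} {L : ℝ≥0} {K : ℝ}
    (hV : ValueData Γ Λ u v L K) {c ε : ℝ} (hc : 0 ≤ c) (hε : 0 < ε) {LF : ℝ≥0}
    (hF : Lip2 LF (fun x y => u x y + c * v x y)) :
    ∃ n : ℕ, ∀ x y, (1 + c) * v x y - ε ≤ (G Γ)^[n + 1] (fun z => u z y + c * v z y) x := by
  have hmono : ∀ x y, Monotone fun n => (G Γ)^[n] (fun z => u z y + c * v z y) x :=
    fun x y => iter_mono_n hΓ (hF.left y) x
  have hcont : ∀ n, Continuous (Function.uncurry fun x y =>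
      (G Γ)^[n] (fun z => u z y + c * v z y) x) := fun n => (iter_lip2 hΓ hF n).cont
  -- open cover
  let V : ℕ → Set (X × Y) := fun n => {s | (1 + c) * v s.1 s.2 - ε <
    (G Γ)^[n] (fun z => u z s.2 + c * v z s.2) s.1}
  have hVo : ∀ n, IsOpen (V n) := fun n => by
    apply isOpen_lt
    · exact (continuous_const.mul (hV.lip.cont)).sub continuous_const
    · exact hcont n
  have hcov : (univ : Set (X × Y)) ⊆ ⋃ n, V n := by
    rintro ⟨x, y⟩ -
    have h1 := hV.reach c hc x y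
    have h2 := tendsto_iter hΓ (hF.left y) x
    have h3 : ∀ᶠ n in atTop, (1 + c) * v x y - ε <
        (G Γ)^[n] (fun z => u z y + c * v z y) x :=
      h2.eventually (lt_mem_nhds (by linarith))
    obtain ⟨n, hn⟩ := h3.exists
    exact mem_iUnion.2 ⟨n, hn⟩
  obtain ⟨t, ht⟩ := isCompact_univ.elim_finite_subcover V hVo hcov
  refine ⟨t.sup id, fun x y => ?_⟩
  obtain ⟨n, hn, hxy⟩ := mem_iUnion₂.1 (ht (mem_univ (x, y)))
  have h1 : n ≤ t.sup id + 1 := (Finset.le_sup (f := id) hn).trans (Nat.le_succ _)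
  exact (le_of_lt hxy).trans (hmono x y h1)

lemma meas_nat {α β : Type*} [MeasurableSpace α] [MeasurableSpace β] {f : ℕ × α → β}
    (h : ∀ k, Measurable fun a => f (k, a)) : Measurable f :=
  measurable_from_prod_countable_right h

section Core

variable (v : X → Y → ℝ) (P : ℕ → X × Y → ProbabilityMeasure X) (Φ : X → ℝ) (B K l κ ε : ℝ) (n : ℕ)

/-- Expected value function at the end of the block. -/
noncomputable def VV (k : ℕ) (y₀ : Y) (x : X) (y : Y) : ℝ := ∫ z, v z y ∂(P k (x, y₀) : Measure X)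

/-- Expected potential at the end of the block. -/
noncomputable def WW (k : ℕ) (y₀ : Y) (x : X) : ℝ := ∫ z, (Φ z + B) ∂(P k (x, y₀) : Measure X)

/-- The lower bound. -/
noncomputable def LB (m : ℕ) (c : ℕ × Y) (s : X × Y) : ℝ :=
  m * (VV v P c.1 c.2 s.1 s.2 - ε) - (m * l + 2 * K * n) / κ * WW P Φ B c.1 c.2 s.1 -
    2 * K * c.1

end Core

section CoreLemmas

variable {v : X → Y → ℝ} {P : ℕ → X × Y → ProbabilityMeasure X} {Φ : X → ℝ} {B K l κ ε : ℝ}
  {n : ℕ} {L M : ℝ≥0}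
variable (hv : Lip2 L v) (hvK : ∀ x y, |v x y| ≤ K) (hP : ∀ k, Measurable (P k))
  (hΦ : LipschitzWith M Φ) (hB : ∀ x, |Φ x| ≤ B)

include hv hvK in
lemma VV_abs (k : ℕ) (y₀ : Y) (x : X) (y : Y) : |VV v P k y₀ x y| ≤ K := by
  rw [abs_le]
  exact ⟨const_le_int (hv.left y).continuous (fun z => (abs_le.1 (hvK z y)).1) _,
    int_le_const (hv.left y).continuous (fun z => (abs_le.1 (hvK z y)).2) _⟩

include hΦ hB in
lemma WW_nonneg (k : ℕ) (y₀ : Y) (x : X) : 0 ≤ WW P Φ B k y₀ x :=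
  const_le_int (f := fun z => Φ z + B) (hΦ.continuous.add continuous_const)
    (fun z => by linarith [(abs_le.1 (hB z)).1]) _

include hΦ hB in
lemma WW_le (k : ℕ) (y₀ : Y) (x : X) : WW P Φ B k y₀ x ≤ 2 * B :=
  int_le_const (f := fun z => Φ z + B) (hΦ.continuous.add continuous_const)
    (fun z => by linarith [(abs_le.1 (hB z)).2]) _

include hv hP in
lemma VV_meas (k : ℕ) : Measurable fun a : Y × (X × Y) => VV v P k a.1 a.2.1 a.2.2 := by
  apply measurable_int (κ := fun a : Y × (X × Y) => P k (a.2.1, a.1))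
    ((hP k).comp (by fun_prop)) (g := fun a z => v z a.2.2)
  exact hv.cont.measurable.comp (by fun_prop : Measurable fun w : (Y × (X × Y)) × X =>
    (w.2, w.1.2.2))

include hP hΦ in
lemma WW_meas (k : ℕ) : Measurable fun a : Y × (X × Y) => WW P Φ B k a.1 a.2.1 := by
  apply measurable_int (κ := fun a : Y × (X × Y) => P k (a.2.1, a.1))
    ((hP k).comp (by fun_prop)) (g := fun _ z => Φ z + B)
  exact (hΦ.continuous.measurable.comp measurable_snd).add measurable_const

include hv hP hΦ in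
lemma LB_meas (m : ℕ) :
    Measurable (Function.uncurry (LB v P Φ B K l κ ε n m)) := by
  have h : Measurable fun a : ℕ × (Y × (X × Y)) => LB v P Φ B K l κ ε n m (a.1, a.2.1) a.2.2 := by
    apply meas_nat
    intro k
    have h1 : Measurable fun a : Y × (X × Y) => (m : ℝ) * (VV v P k a.1 a.2.1 a.2.2 - ε) :=
      ((VV_meas hv hP k).sub_const ε).const_mul _
    have h2 : Measurable fun a : Y × (X × Y) => (m * l + 2 * K * n) / κ * WW P Φ B k a.1 a.2.1 :=
      (WW_meas hP hΦ k).const_mul _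
    have h3 : Measurable fun a : Y × (X × Y) => (m : ℝ) * (VV v P k a.1 a.2.1 a.2.2 - ε) -
        (m * l + 2 * K * n) / κ * WW P Φ B k a.1 a.2.1 - 2 * K * k := (h1.sub h2).sub_const _
    exact h3
  exact h.comp (by fun_prop : Measurable fun w : (ℕ × Y) × (X × Y) => (w.1.1, (w.1.2, w.2)))

include hv hvK hΦ hB in
lemma LB_bound (m : ℕ) (c : ℕ × Y) : ∃ C, ∀ s, |LB v P Φ B K l κ ε n m c s| ≤ C := by
  refine ⟨m * (K + |ε|) + |(m * l + 2 * K * n) / κ| * (2 * B) + |2 * K * c.1|, fun s => ?_⟩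
  have h1 := VV_abs (P := P) hv hvK c.1 c.2 s.1 s.2
  have h2 := WW_nonneg (P := P) hΦ hB c.1 c.2 s.1
  have h3 := WW_le (P := P) hΦ hB c.1 c.2 s.1
  simp only [LB]
  calc _ ≤ |m * (VV v P c.1 c.2 s.1 s.2 - ε) - (m * l + 2 * K * n) / κ * WW P Φ B c.1 c.2 s.1| +
        |2 * K * (c.1 : ℝ)| := abs_sub _ _
    _ ≤ (|m * (VV v P c.1 c.2 s.1 s.2 - ε)| + |(m * l + 2 * K * n) / κ * WW P Φ B c.1 c.2 s.1|) +
        |2 * K * (c.1 : ℝ)| := by gcongr; exact abs_sub _ _
    _ ≤ _ := by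
      rw [abs_mul, abs_mul, Nat.abs_cast, abs_of_nonneg h2]
      gcongr
      exact (abs_sub _ _).trans (by gcongr)

end CoreLemmas

end Two

end GamblingGame
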