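import Pool.Agent.Helper98.Gamble.Value

open MeasureTheory Set Filter Topology
open scoped NNReal BoundedContinuousFunction

set_option linter.unusedSectionVars false

namespace GamblingGame

universe u v w

section One

variable {X : Type u} [MetricSpace X] [CompactSpace X] [MeasurableSpace X] [BorelSpace X]
variable {Γ : X → Set (ProbabilityMeasure X)} (hΓ : IsHouse Γ)

include hΓ

/-- The reachability inequality for discounted values. -/
lemma reach_ineq {w u : X → ℝ} {L M : ℝ≥0} (hw : LipschitzWith L w) (hu : LipschitzWith M u)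
    {l : ℝ} (hl0 : 0 < l) (hl1 : l < 1) (H : ∀ x, w x ≤ l * u x + (1 - l) * G Γ w x)
    {c : ℝ} (hc : 0 ≤ c) (x : X) :
    (1 + c) * w x ≤ Ginf Γ (fun z => u z + c * w z) x := by
  have hFlip : LipschitzWith (M + c.toNNReal * L) (fun z => u z + c * w z) := by
    apply lip_of
    intro a b
    have h1 := lip_le hu a b
    have h2 := mul_le_mul_of_nonneg_left (lip_le hw a b) hc
    push_cast
    rw [Real.coe_toNNReal c hc]
    linarith
  have hglip : LipschitzWith ((1 + c).toNNReal * L) (fun z => (1 + c) * w z) := by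
    apply lip_of
    intro a b
    have h2 := mul_le_mul_of_nonneg_left (lip_le hw a b) (by linarith : (0 : ℝ) ≤ 1 + c)
    push_cast
    rw [Real.coe_toNNReal (1 + c) (by linarith)]
    linarith
  set h := Ginf Γ (fun z => u z + c * w z) with hh
  have hhlip := Ginf_lip hΓ hFlip
  have hFh : ∀ z, u z + c * w z ≤ h z := self_le_Ginf hΓ hFlip
  -- homogeneity
  have hG : ∀ z, (1 + c) * G Γ w z ≤ G Γ (fun z => (1 + c) * w z) z := by
    intro z
    obtain ⟨p, hp, e, -⟩ := exists_G hΓ hw.continuous z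
    have := le_G hΓ hglip.continuous hp
    rw [integral_const_mul, e] at this
    exact this
  have : Nonempty X := ⟨x⟩
  obtain ⟨x₀, -, hmax⟩ := (isCompact_univ (X := X)).exists_isMaxOn univ_nonempty
    ((hglip.continuous.sub hhlip.continuous).continuousOn)
  set m := (1 + c) * w x₀ - h x₀ with hm
  have hmax' : ∀ z, (1 + c) * w z ≤ h z + m := by
    intro z
    have : (1 + c) * w z - h z ≤ (1 + c) * w x₀ - h x₀ := hmax (mem_univ z)
    linarith
  have h1 := G_le_add hΓ hglip.continuous hhlip.continuous hmax' x₀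
  rw [G_Ginf hΓ hFlip] at h1
  have h2 := H x₀
  have h3 := hG x₀
  have h4 := hFh x₀
  have hm0 : m ≤ 0 := by
    by_contra hpos
    push Not at hpos
    have h5 : (1 + c) * w x₀ ≤ l * (1 + c) * u x₀ + (1 - l) * G Γ (fun z => (1 + c) * w z) x₀ := by
      have a1 := mul_le_mul_of_nonneg_left h2 (by linarith : (0 : ℝ) ≤ 1 + c)
      have a2 := mul_le_mul_of_nonneg_left h3 (by linarith : (0 : ℝ) ≤ 1 - l)
      nlinarith
    have h6 := mul_le_mul_of_nonneg_left h1 (by linarith : (0 : ℝ) ≤ 1 - l)
    have h7 := mul_le_mul_of_nonneg_left h4 (by positivity : (0 : ℝ) ≤ l * (1 + c))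
    -- g ≤ l (1+c) (h - c w) + (1-l)(h+m)
    have h8 : (1 + c) * w x₀ ≤ l * (1 + c) * h x₀ - l * c * ((1 + c) * w x₀) +
        (1 - l) * (h x₀ + m) := by nlinarith
    have h9 : (1 + c) * w x₀ = h x₀ + m := by rw [hm]; ring
    rw [h9] at h8
    have h10 : (l + l * c) * m ≤ 0 := by nlinarith
    have h11 : 0 < (l + l * c) * m := by
      apply mul_pos _ hpos
      have : 0 ≤ l * c := mul_nonneg hl0.le hc
      linarith
    linarith
  have := hmax' x
  linarith

end One

section Two

variable {X : Type u} [MetricSpace X] [CompactSpace X] [MeasurableSpace X] [BorelSpace X]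
variable {Y : Type v} [MetricSpace Y] [CompactSpace Y] [MeasurableSpace Y] [BorelSpace Y]

/-- Admissible functions. -/
def SS (X : Type u) (Y : Type v) [MetricSpace X] [MetricSpace Y] (L : ℝ≥0) (K : ℝ) :
    Set ((X × Y) →ᵇ ℝ) :=
  {f | Lip2 L (fun x y => f (x, y)) ∧ ∀ z, |f z| ≤ K}

lemma cont_eval (z : X × Y) : Continuous fun f : (X × Y) →ᵇ ℝ => f z :=
  continuous_eval_const z

lemma isClosed_SS (L : ℝ≥0) (K : ℝ) : IsClosed (SS X Y L K) := by
  have h1 : IsClosed {f : (X × Y) →ᵇ ℝ | Lip2 L (fun x y => f (x, y))} := by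
    simp only [Lip2, ofPred_forall]
    refine isClosed_iInter fun x => isClosed_iInter fun x' => isClosed_iInter fun y =>
      isClosed_iInter fun y' => ?_
    exact isClosed_le (cont_eval (x, y)) ((cont_eval (x', y')).add continuous_const)
  have h2 : IsClosed {f : (X × Y) →ᵇ ℝ | ∀ z, |f z| ≤ K} := by
    simp only [ofPred_forall]
    refine isClosed_iInter fun z => ?_
    exact isClosed_le (cont_eval z).abs continuous_const
  exact h1.inter h2

lemma isCompact_SS (L : ℝ≥0) (K : ℝ) : IsCompact (SS X Y L K) := by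
  apply BoundedContinuousFunction.arzela_ascoli₂ (Icc (-K) K) isCompact_Icc _ (isClosed_SS L K)
  · intro f x hf
    exact abs_le.1 (hf.2 x)
  · apply UniformEquicontinuous.equicontinuous
    apply LipschitzWith.uniformEquicontinuous _ (2 * L)
    rintro ⟨f, hf⟩
    apply lip_of
    rintro ⟨x, y⟩ ⟨x', y'⟩
    have h1 := hf.1 x x' y y'
    have h2 : dist x x' ≤ dist (x, y) (x', y') := by
      rw [Prod.dist_eq]; exact le_max_left _ _
    have h3 : dist y y' ≤ dist (x, y) (x', y') := by
      rw [Prod.dist_eq]; exact le_max_right _ _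
    have h4 : (L : ℝ) * (dist x x' + dist y y') ≤ L * (2 * dist (x, y) (x', y')) :=
      mul_le_mul_of_nonneg_left (by linarith) L.2
    push_cast
    have h1' : f (x, y) ≤ f (x', y') + L * (dist x x' + dist y y') := h1
    change f (x, y) ≤ f (x', y') + _
    linarith

variable {Γ : X → Set (ProbabilityMeasure X)} {Λ : Y → Set (ProbabilityMeasure Y)}
variable (hΓ : IsHouse Γ) (hΛ : IsHouse Λ)

include hΓ hΛ

lemma exists_discounted {u : X → Y → ℝ} {L : ℝ≥0} (hu : Lip2 L u) {K : ℝ}
    (hK : ∀ x y, |u x y| ≤ K) (hK0 : 0 ≤ K) {l : ℝ} (hl0 : 0 < l) (hl1 : l < 1) :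
    ∃ f ∈ SS X Y L K, ∀ x y, f (x, y) = l * u x y + (1 - l) *
      valOp Γ Λ (fun x y => f (x, y)) x y := by
  -- the operator
  let Tf : ((X × Y) →ᵇ ℝ) → X → Y → ℝ := fun f x y =>
    l * u x y + (1 - l) * valOp Γ Λ (fun x y => f (x, y)) x y
  have hTlip : ∀ f ∈ SS X Y L K, Lip2 L (Tf f) := by
    intro f hf x x' y y'
    have h1 := mul_le_mul_of_nonneg_left (hu x x' y y') hl0.le
    have h2 := mul_le_mul_of_nonneg_left (valOp_lip hΓ hΛ hf.1 x x' y y')
      (by linarith : (0 : ℝ) ≤ 1 - l)
    simp only [Tf]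
    nlinarith
  have hTabs : ∀ f ∈ SS X Y L K, ∀ x y, |Tf f x y| ≤ K := by
    intro f hf x y
    have h1 := abs_le.1 (hK x y)
    have h2 := abs_le.1 (valOp_abs hΓ hΛ hf.1 (fun x y => hf.2 (x, y)) x y)
    simp only [Tf]
    rw [abs_le]
    constructor
    · nlinarith [h1.1, h1.2, h2.1, h2.2]
    · nlinarith [h1.1, h1.2, h2.1, h2.2]
  let T : SS X Y L K → SS X Y L K := fun f =>
    ⟨BoundedContinuousFunction.mkOfCompact ⟨Function.uncurry (Tf f.1), (hTlip f.1 f.2).cont⟩,
      hTlip f.1 f.2, fun z => hTabs f.1 f.2 z.1 z.2⟩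
  have hcontr : ContractingWith (1 - l).toNNReal T := by
    refine ⟨?_, ?_⟩
    · rw [← NNReal.coe_lt_coe, Real.coe_toNNReal _ (by linarith), NNReal.coe_one]
      linarith
    · apply LipschitzWith.of_dist_le_mul
      rintro ⟨f, hf⟩ ⟨g, hg⟩
      rw [Real.coe_toNNReal _ (by linarith)]
      change dist (T ⟨f, hf⟩).1 (T ⟨g, hg⟩).1 ≤ (1 - l) * dist f g
      rw [BoundedContinuousFunction.dist_le (mul_nonneg (by linarith) dist_nonneg)]
      rintro ⟨x, y⟩
      change dist (Tf f x y) (Tf g x y) ≤ _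
      have hfg : ∀ x y, f (x, y) ≤ g (x, y) + dist f g := by
        intro x y
        have := BoundedContinuousFunction.dist_coe_le_dist (f := f) (g := g) (x, y)
        rw [Real.dist_eq] at this
        linarith [(abs_le.1 this).2]
      have hgf : ∀ x y, g (x, y) ≤ f (x, y) + dist f g := by
        intro x y
        have := BoundedContinuousFunction.dist_coe_le_dist (f := f) (g := g) (x, y)
        rw [Real.dist_eq] at this
        linarith [(abs_le.1 this).1]
      have h1 := valOp_mono_add hΓ hΛ hf.1 hg.1 hfg x y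
      have h2 := valOp_mono_add hΓ hΛ hg.1 hf.1 hgf x y
      rw [Real.dist_eq]
      have : Tf f x y - Tf g x y = (1 - l) * (valOp Γ Λ (fun x y => f (x, y)) x y -
        valOp Γ Λ (fun x y => g (x, y)) x y) := by simp only [Tf]; ring
      rw [this, abs_mul, abs_of_pos (by linarith : (0 : ℝ) < 1 - l)]
      apply mul_le_mul_of_nonneg_left _ (by linarith)
      rw [abs_le]
      constructor <;> linarith
  have : Nonempty (SS X Y L K) := ⟨⟨0, fun x x' y y' => by
    simp only [BoundedContinuousFunction.coe_zero, Pi.zero_apply, zero_add]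
    positivity, fun z => by simpa using hK0⟩⟩
  have : CompleteSpace (SS X Y L K) := (isCompact_SS L K).isComplete.completeSpace_coe
  let F := hcontr.fixedPoint
  have hF : T F = F := hcontr.fixedPoint_isFixedPt
  refine ⟨F.1, F.2, fun x y => ?_⟩
  have : (T F).1 (x, y) = F.1 (x, y) := by rw [hF]
  exact this.symm

/-- Existence of the limit value with its functional properties. -/
theorem exists_limit {u : X → Y → ℝ} {L : ℝ≥0} (hu : Lip2 L u) {K : ℝ}
    (hK : ∀ x y, |u x y| ≤ K) (hK0 : 0 ≤ K) :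
    ∃ v : X → Y → ℝ, Lip2 L v ∧ (∀ x y, |v x y| ≤ K) ∧
      (∀ x y, valOp Γ Λ v x y = v x y) ∧
      (∀ c : ℝ, 0 ≤ c → ∀ x y, (1 + c) * v x y ≤ Ginf Γ (fun z => u z y + c * v z y) x) ∧
      (∀ c : ℝ, 0 ≤ c → ∀ y x, (1 + c) * sw v y x ≤
        Ginf Λ (fun z => sw u z x + c * sw v z x) y) := by
  let l : ℕ → ℝ := fun n => 1 / ((n : ℝ) + 2)
  have hl0 : ∀ n, 0 < l n := fun n => by positivity
  have hl1 : ∀ n, l n < 1 := fun n => by
    rw [div_lt_one (by positivity)]
    have : (0 : ℝ) ≤ n := Nat.cast_nonneg n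
    linarith
  have hlim : Tendsto l atTop (𝓝 0) := by
    have h1 := (tendsto_one_div_add_atTop_nhds_zero_nat (𝕜 := ℝ)).comp (tendsto_add_atTop_nat 1)
    refine h1.congr fun n => ?_
    simp only [Function.comp, l]
    push_cast
    ring
  choose f hf hfix using fun n => exists_discounted hΓ hΛ hu hK hK0 (hl0 n) (hl1 n)
  obtain ⟨a, ha, φ, hφ, hconv⟩ := (isCompact_SS L K).tendsto_subseq hf
  have hdist : Tendsto (fun n => dist (f (φ n)) a) atTop (𝓝 0) := by
    have := tendsto_iff_dist_tendsto_zero.1 hconv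
    exact this
  have hlφ : Tendsto (fun n => l (φ n)) atTop (𝓝 0) := hlim.comp hφ.tendsto_atTop
  have hfg : ∀ n x y, f (φ n) (x, y) ≤ a (x, y) + dist (f (φ n)) a := by
    intro n x y
    have := BoundedContinuousFunction.dist_coe_le_dist (f := f (φ n)) (g := a) (x, y)
    rw [Real.dist_eq] at this
    linarith [(abs_le.1 this).2]
  have hgf : ∀ n x y, a (x, y) ≤ f (φ n) (x, y) + dist (f (φ n)) a := by
    intro n x y
    have := BoundedContinuousFunction.dist_coe_le_dist (f := f (φ n)) (g := a) (x, y)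
    rw [Real.dist_eq] at this
    linarith [(abs_le.1 this).1]
  have hpt : ∀ x y, Tendsto (fun n => f (φ n) (x, y)) atTop (𝓝 (a (x, y))) := by
    intro x y
    rw [tendsto_iff_dist_tendsto_zero]
    refine squeeze_zero (fun _ => dist_nonneg) (fun n => ?_) hdist
    exact BoundedContinuousFunction.dist_coe_le_dist (x, y)
  refine ⟨fun x y => a (x, y), ha.1, fun x y => ha.2 (x, y), ?_, ?_, ?_⟩
  · intro x y
    have hval : Tendsto (fun n => valOp Γ Λ (fun x y => f (φ n) (x, y)) x y) atTop
        (𝓝 (valOp Γ Λ (fun x y => a (x, y)) x y)) := by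
      rw [tendsto_iff_dist_tendsto_zero]
      refine squeeze_zero (fun _ => dist_nonneg) (fun n => ?_) hdist
      have h1 := valOp_mono_add hΓ hΛ (hf (φ n)).1 ha.1 (hfg n) x y
      have h2 := valOp_mono_add hΓ hΛ ha.1 (hf (φ n)).1 (hgf n) x y
      rw [Real.dist_eq, abs_le]
      constructor <;> linarith
    have h1 : Tendsto (fun n => l (φ n) * u x y + (1 - l (φ n)) *
        valOp Γ Λ (fun x y => f (φ n) (x, y)) x y) atTop
        (𝓝 (0 * u x y + (1 - 0) * valOp Γ Λ (fun x y => a (x, y)) x y)) :=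
      (hlφ.mul_const _).add ((tendsto_const_nhds.sub hlφ).mul hval)
    have h2 : (fun n => l (φ n) * u x y + (1 - l (φ n)) *
        valOp Γ Λ (fun x y => f (φ n) (x, y)) x y) = fun n => f (φ n) (x, y) := by
      funext n; exact (hfix (φ n) x y).symm
    rw [h2] at h1
    have := tendsto_nhds_unique h1 (hpt x y)
    change _ = a (x, y)
    rw [← this]; ring
  · intro c hc x y
    have hstep : ∀ n, (1 + c) * f (φ n) (x, y) ≤
        Ginf Γ (fun z => u z y + c * a (z, y)) x + c * dist (f (φ n)) a := by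
      intro n
      have hH : ∀ x, f (φ n) (x, y) ≤ l (φ n) * u x y + (1 - l (φ n)) *
          G Γ (fun z => f (φ n) (z, y)) x := by
        intro x
        rw [hfix (φ n) x y]
        obtain ⟨p, hp, hle⟩ := valOp_le hΓ hΛ (hf (φ n)).1 x (hΛ.leavable y)
        simp_rw [int_dirac] at hle
        have h1 := le_G hΓ ((hf (φ n)).1.left y).continuous hp
        have h2 := mul_le_mul_of_nonneg_left (hle.trans h1)
          (by linarith [hl1 (φ n)] : (0 : ℝ) ≤ 1 - l (φ n))
        linarith
      have h1 := reach_ineq hΓ ((hf (φ n)).1.left y) (hu.left y) (hl0 _) (hl1 _) hH hc x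
      refine h1.trans ?_
      have hl : ∀ (g : (X × Y) →ᵇ ℝ), g ∈ SS X Y L K →
          LipschitzWith (L + c.toNNReal * L) (fun z => u z y + c * g (z, y)) := by
        intro g hg
        apply lip_of
        intro z z'
        have h1 := lip_le (hu.left y) z z'
        have h2 := mul_le_mul_of_nonneg_left (lip_le (hg.1.left y) z z') hc
        push_cast
        rw [Real.coe_toNNReal c hc]
        linarith
      apply Ginf_le_add hΓ (hl _ (hf _)) (hl _ ha)
      intro z
      have := mul_le_mul_of_nonneg_left (hfg n z y) hc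
      linarith
    have h3 := le_of_tendsto_of_tendsto' ((hpt x y).const_mul (1 + c))
      ((hdist.const_mul c).const_add (Ginf Γ (fun z => u z y + c * a (z, y)) x)) hstep
    simpa using h3
  · intro c hc y x
    have hstep : ∀ n, (1 + c) * (-f (φ n) (x, y)) ≤
        Ginf Λ (fun z => sw u z x + c * (-a (x, z))) y + c * dist (f (φ n)) a := by
      intro n
      have hH : ∀ y, -f (φ n) (x, y) ≤ l (φ n) * sw u y x + (1 - l (φ n)) *
          G Λ (fun z => -f (φ n) (x, z)) y := by
        intro y
        rw [hfix (φ n) x y]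
        obtain ⟨q, hq, hle⟩ := valOp_ge hΓ hΛ (hf (φ n)).1 y (hΓ.leavable x)
        rw [int_dirac] at hle
        have h1 := le_G hΛ (f := fun z => -f (φ n) (x, z)) ((hf (φ n)).1.right x).continuous.neg hq
        rw [integral_neg] at h1
        have h2 := mul_le_mul_of_nonneg_left (show -valOp Γ Λ (fun x y => f (φ n) (x, y)) x y ≤
          G Λ (fun z => -f (φ n) (x, z)) y by linarith)
          (by linarith [hl1 (φ n)] : (0 : ℝ) ≤ 1 - l (φ n))
        simp only [sw]
        linarith
      have hl2 : ∀ (g : (X × Y) →ᵇ ℝ), g ∈ SS X Y L K → LipschitzWith L (fun z => -g (x, z)) := by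
        intro g hg
        exact hg.1.sw.left x
      have h1 := reach_ineq hΛ (hl2 _ (hf (φ n))) (hu.sw.left x) (hl0 _) (hl1 _) hH hc y
      refine h1.trans ?_
      have hl : ∀ (g : (X × Y) →ᵇ ℝ), g ∈ SS X Y L K →
          LipschitzWith (L + c.toNNReal * L) (fun z => sw u z x + c * (-g (x, z))) := by
        intro g hg
        apply lip_of
        intro z z'
        have h1 := lip_le (hu.sw.left x) z z'
        have h2 := mul_le_mul_of_nonneg_left (lip_le (hl2 g hg) z z') hc
        push_cast
        rw [Real.coe_toNNReal c hc]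
        linarith
      apply Ginf_le_add hΛ (hl _ (hf _)) (hl _ ha)
      intro z
      have := mul_le_mul_of_nonneg_left (hgf n x z) hc
      linarith
    have h3 := le_of_tendsto_of_tendsto' ((hpt x y).neg.const_mul (1 + c))
      ((hdist.const_mul c).const_add (Ginf Λ (fun z => sw u z x + c * (-a (x, z))) y)) hstep
    simpa [sw] using h3

end Two

end GamblingGame
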