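import Pool.Agent.Helper98.Gamble.Steps

open MeasureTheory Set Filter Topology
open scoped NNReal BoundedContinuousFunction

set_option linter.unusedSectionVars false

namespace GamblingGame

universe u v w

section Two

variable {X : Type u} [MetricSpace X] [CompactSpace X] [MeasurableSpace X] [BorelSpace X]
variable {Y : Type v} [MetricSpace Y] [CompactSpace Y] [MeasurableSpace Y] [BorelSpace Y]
variable {Γ : X → Set (ProbabilityMeasure X)} {Λ : Y → Set (ProbabilityMeasure Y)}

/-- Player 1 guarantees the value (Lipschitz payoff). -/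
theorem guarantee (hΓ : IsHouse Γ) (hac : StronglyAcyclicMax Γ) {u v : X → Y → ℝ} {L : ℝ≥0}
    {K : ℝ} (hu : Lip2 L u) (huK : ∀ x y, |u x y| ≤ K) (hK0 : 0 ≤ K)
    (hV : ValueData Γ Λ u v L K) {ε : ℝ} (hε : 0 < ε) :
    ∃ σ' : Rule X Y X, IsStrategy₁ Γ σ' ∧ ∃ N : ℕ, ∀ n ≥ N, ∀ (s : X × Y) (τ : Rule X Y Y),
      IsStrategy₂ Λ τ → v s.1 s.2 - 3 * ε ≤ avgPayoff (Function.uncurry u) n s σ' τ := by
  classical
  rcases isEmpty_or_nonempty Y with hY | hY
  · refine ⟨fun t h s => (hY.false s.2).elim, ⟨fun t h s => (hY.false s.2).elim, fun t => ?_⟩,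
      0, fun n _ s => (hY.false s.2).elim⟩
    have : IsEmpty ((Fin t → Stage X Y) × (X × Y)) := ⟨fun z => hY.false z.2.2⟩
    exact measurable_of_empty _
  obtain ⟨y₀⟩ := hY
  have hY : Nonempty Y := ⟨y₀⟩
  have hL1 : (0 : ℝ) < L + 1 := by positivity
  obtain ⟨Φ, M, hΦ, κ, hκ, hstr⟩ := exists_strict hΓ hac (η := ε / (2 * (L + 1))) (by positivity)
  obtain ⟨B, hB⟩ := exists_bound hΦ.continuous
  have hB' : ∀ x, |Φ x| ≤ |B| := fun x => (hB x).trans (le_abs_self B)
  clear hB
  obtain ⟨B, hB, hB0⟩ : ∃ B : ℝ, (∀ x, |Φ x| ≤ B) ∧ 0 ≤ B := ⟨|B|, hB', abs_nonneg _⟩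
  clear hB'
  -- choice of c
  let c : ℝ := (2 * K + ε) * (2 * B) / (κ * ε) + 1
  have hc0 : 0 < c := by positivity
  let l : ℝ := (2 * K + ε) / c
  have hl0 : 0 ≤ l := by positivity
  have hlB : l / κ * (2 * B) ≤ ε := by
    have h1 : (2 * K + ε) * (2 * B) / (κ * ε) ≤ c := by simp only [c]; linarith
    rw [div_le_iff₀ (by positivity)] at h1
    simp only [l]
    rw [div_div, div_mul_eq_mul_div, div_le_iff₀ (by positivity)]
    nlinarith
  have hF : Lip2 (L + c.toNNReal * L) (fun x y => u x y + c * v x y) := by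
    intro x x' y y'
    have h1 := hu x x' y y'
    have h2 := mul_le_mul_of_nonneg_left (hV.lip x x' y y') hc0.le
    push_cast
    rw [Real.coe_toNNReal c hc0.le]
    linarith
  obtain ⟨n', hn'⟩ := exists_length hΓ hV hc0.le (by positivity : 0 < ε / 2) hF
  set n : ℕ := n' + 1 with hn
  obtain ⟨sel, P, hsel, hP, hselΓ, hP0, hPs, hPC, hPF⟩ := exists_policy hΓ hF
  -- excessivity for reachable measures
  have hexc : ∀ x y, ∀ p ∈ Cset Γ x, ∫ z, v z y ∂(p : Measure X) ≤ v x y := by
    intro x y p hp
    refine (hp _ L (hV.lip.left y)).trans ?_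
    exact Ginf_min hΓ (hV.lip.left y) (hV.lip.left y)
      (fun z => G_le hΓ (hV.lip.left y).continuous (fun p hp => hV.exc z y p hp))
      (fun _ => le_rfl) x
  -- properties of a block
  have hblock : ∀ x y, u x y < v x y - ε →
      v x y - l ≤ VV v P n y x y ∧ WW P Φ B n y x ≤ Φ x + B - κ := by
    intro x y huv
    have h1 := hn' x y
    rw [← hPF (n' + 1) x y] at h1
    have hiu : Integrable (fun z => u z y) (P n (x, y) : Measure X) :=
      integrable_cont (hu.left y).continuous _
    have hiv : Integrable (fun z => v z y) (P n (x, y) : Measure X) :=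
      integrable_cont (hV.lip.left y).continuous _
    have h2 : ∫ z, (u z y + c * v z y) ∂(P n (x, y) : Measure X) =
        ∫ z, u z y ∂(P n (x, y) : Measure X) + c * ∫ z, v z y ∂(P n (x, y) : Measure X) := by
      rw [integral_add hiu (hiv.const_mul c), integral_const_mul]
    have h1' : (1 + c) * v x y - ε / 2 ≤ ∫ z, u z y ∂(P n (x, y) : Measure X) +
        c * ∫ z, v z y ∂(P n (x, y) : Measure X) := by
      rw [← h2]; exact h1
    have h3 := hexc x y _ (hPC n x y)
    have h4 : ∫ z, u z y ∂(P n (x, y) : Measure X) ≤ K :=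
      int_le_const (hu.left y).continuous (fun z => (abs_le.1 (huK z y)).2) _
    have h5 := (abs_le.1 (hV.bdd x y)).1
    have h6 := mul_le_mul_of_nonneg_left h3 hc0.le
    constructor
    · change v x y - l ≤ ∫ z, v z y ∂(P n (x, y) : Measure X)
      have h7 : c * (v x y - ∫ z, v z y ∂(P n (x, y) : Measure X)) ≤ 2 * K + ε := by nlinarith
      have h8 : v x y - ∫ z, v z y ∂(P n (x, y) : Measure X) ≤ l := by
        simp only [l]
        rw [le_div_iff₀ hc0]
        linarith
      linarith
    · have h9 : v x y - ε / 2 ≤ ∫ z, u z y ∂(P n (x, y) : Measure X) := by linarith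
      have hdc : Continuous fun z => dist x z := by fun_prop
      have h10 : ∫ z, u z y ∂(P n (x, y) : Measure X) ≤
          ∫ z, ((L : ℝ) * dist x z) ∂(P n (x, y) : Measure X) + u x y := by
        apply int_le_add (hu.left y).continuous (by fun_prop)
        intro z
        have := hu z x y y
        rw [dist_self, add_zero, dist_comm] at this
        linarith
      rw [integral_const_mul] at h10
      have h11 : 0 ≤ ∫ z, dist x z ∂(P n (x, y) : Measure X) :=
        const_le_int hdc (fun z => dist_nonneg) _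
      have h12 : ε / (2 * (L + 1)) ≤ ∫ z, dist x z ∂(P n (x, y) : Measure X) := by
        rw [div_le_iff₀ (by positivity)]
        nlinarith
      have h13 := (hstr x _ (hPC n x y)).2 h12
      have h14 : WW P Φ B n y x = ∫ z, Φ z ∂(P n (x, y) : Measure X) + B := by
        simp only [WW]
        rw [integral_add (integrable_cont hΦ.continuous _) (integrable_const _)]
        simp
      rw [h14]
      linarith
  -- the automaton
  let eff : (ℕ × Y) → X × Y → ℕ × Y := fun m s =>
    if m.1 = 0 ∧ u s.1 s.2 < v s.1 s.2 - ε then (n, s.2) else m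
  have heff : Measurable (Function.uncurry eff) := by
    have h1 : MeasurableSet {w : (ℕ × Y) × (X × Y) | w.1.1 = 0} :=
      (measurable_fst.comp measurable_fst) (measurableSet_singleton 0)
    have h2 : MeasurableSet {w : (ℕ × Y) × (X × Y) |
        u w.2.1 w.2.2 < v w.2.1 w.2.2 - ε} :=
      measurableSet_lt (hu.cont.measurable.comp measurable_snd)
        ((hV.lip.cont.measurable.comp measurable_snd).sub_const _)
    exact Measurable.ite (h1.inter h2)
      (measurable_const.prodMk (measurable_snd.comp measurable_snd)) measurable_fst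
  let act0 : (ℕ × Y) × X → ProbabilityMeasure X := fun w =>
    match w.1.1 with
    | 0 => diracProba w.2
    | k + 1 => sel k (w.2, w.1.2)
  have hact0 : Measurable act0 := by
    have h : Measurable fun a : ℕ × (Y × X) => act0 ((a.1, a.2.1), a.2.2) := by
      apply meas_nat
      intro k
      cases k with
      | zero => exact (measurable_of_continuous continuous_diracProba).comp measurable_snd
      | succ k => exact (hsel k).comp (by fun_prop : Measurable fun a : Y × X => (a.2, a.1))
    exact h.comp (by fun_prop : Measurable fun w : (ℕ × Y) × X => (w.1.1, (w.1.2, w.2)))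
  let act : (ℕ × Y) → X × Y → ProbabilityMeasure X := fun m s => act0 (eff m s, s.1)
  have hact : Measurable (Function.uncurry act) :=
    hact0.comp (heff.prodMk (measurable_fst.comp measurable_snd))
  let next : (ℕ × Y) → X × Y → ℕ × Y := fun m s => ((eff m s).1 - 1, (eff m s).2)
  have hnext : Measurable (Function.uncurry next) := by
    have h1 : Measurable fun a : ℕ × Y => ((a.1 - 1, a.2) : ℕ × Y) :=
      ((measurable_of_countable (fun k : ℕ => k - 1)).comp measurable_fst).prodMk measurable_snd
    exact h1.comp heff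
  let σ' : Rule X Y X := fun t h s => act (memo (0, y₀) next t h) s
  have hσ' : IsStrategy₁ Γ σ' := by
    constructor
    · intro t h s
      change act0 (eff (memo (0, y₀) next t h) s, s.1) ∈ Γ s.1
      generalize eff (memo (0, y₀) next t h) s = w
      obtain ⟨k, y⟩ := w
      cases k with
      | zero => exact hΓ.leavable _
      | succ k => exact hselΓ k s.1 y
    · intro t
      exact hact.comp (((measurable_memo _ next hnext t).comp measurable_fst).prodMk
        measurable_snd)
  -- one step
  have hstep : ∀ (m : ℕ) (w : ℕ × Y) (s : X × Y), ∀ q ∈ Λ s.2,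
      LB v P Φ B K l κ ε n (m + 1) w s ≤ Function.uncurry u s +
        ∫ z, LB v P Φ B K l κ ε n m (next w s) z
          ∂((act w s : Measure X).prod (q : Measure Y)) := by
    rintro m ⟨k, y'⟩ ⟨x, y⟩ q hq
    have hdep : ∀ z, v z y ≤ ∫ w, v z w ∂(q : Measure Y) := fun z => hV.dep z y q hq
    have hua : -K ≤ Function.uncurry u (x, y) := (abs_le.1 (huK x y)).1
    by_cases hcase : k = 0 ∧ u x y < v x y - ε
    · obtain ⟨rfl, huv⟩ := hcase
      have e : eff (0, y') (x, y) = (n, y) := by simp [eff, huv]
      have e1 : next (0, y') (x, y) = (n', y) := by simp only [next, e]; simp [hn]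
      have e2 : act (0, y') (x, y) = sel n' (x, y) := by simp only [act, e]; rfl
      rw [e1, e2]
      obtain ⟨hb1, hb2⟩ := hblock x y huv
      refine (step_start (M := M) hV.lip hΦ hB hK0 hl0 hκ hP0 (m + 1) y' y x hb1 hb2).trans ?_
      exact step_block hV.lip hV.bdd hP hΦ hB hl0 hκ hε m n' y y x (sel n' (x, y))
        (fun f hf => hPs n' x y f hf) q hdep hua
    · have e : eff (k, y') (x, y) = (k, y') := by
        simp only [eff]
        rw [if_neg hcase]
      cases k with
      | zero =>
        have huv : v x y - ε ≤ u x y := by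
          by_contra h
          exact hcase ⟨rfl, not_le.1 h⟩
        have e1 : next (0, y') (x, y) = (0, y') := by simp only [next, e]
        have e2 : act (0, y') (x, y) = diracProba x := by simp only [act, e]; rfl
        rw [e1, e2]
        exact step_stay hV.lip hV.bdd hP hΦ hB hl0 hκ hP0 m y' y x q hdep huv
      | succ k =>
        have e1 : next (k + 1, y') (x, y) = (k, y') := by simp only [next, e]; simp
        have e2 : act (k + 1, y') (x, y) = sel k (x, y') := by simp only [act, e]; rfl
        rw [e1, e2]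
        exact step_block hV.lip hV.bdd hP hΦ hB hl0 hκ hε m k y' y x (sel k (x, y'))
          (fun f hf => hPs k x y' f hf) q hdep hua
  have hLB0 : ∀ (w : ℕ × Y) (s : X × Y), LB v P Φ B K l κ ε n 0 w s ≤ 0 := by
    intro w s
    simp only [LB]
    have h1 := WW_nonneg (P := P) hΦ hB w.1 w.2 s.1
    have h2 : 0 ≤ (((0 : ℕ) : ℝ) * l + 2 * K * n) / κ * WW P Φ B w.1 w.2 s.1 := by
      push_cast
      positivity
    have h3 : (0 : ℝ) ≤ 2 * K * w.1 := by positivity
    push_cast at h2 ⊢
    linarith
  -- conclusion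
  obtain ⟨N, hN⟩ := exists_nat_ge (2 * K * n / κ * (2 * B) / ε)
  refine ⟨σ', hσ', max N 1, fun T hT s τ hτ => ?_⟩
  have hT1 : 1 ≤ T := (le_max_right _ _).trans hT
  have hTN : N ≤ T := (le_max_left _ _).trans hT
  have hTpos : (0 : ℝ) < T := by exact_mod_cast hT1
  have hmain := total_lower (K := K) (hu.cont.measurable) (fun s => huK s.1 s.2) (m₀ := (0, y₀))
    hnext hact (LB v P Φ B K l κ ε n) (fun m => LB_meas hV.lip hP hΦ m)
    (fun m c => LB_bound hV.lip hV.bdd hΦ hB m c) hLB0 hstep hτ T 0 Fin.elim0 s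
  have hmem0 : memo (0, y₀) next 0 (Fin.elim0 : Fin 0 → Stage X Y) = (0, y₀) := rfl
  rw [hmem0] at hmain
  have e1 : VV v P 0 y₀ s.1 s.2 = v s.1 s.2 := by
    simp only [VV]; rw [hP0]; exact int_dirac _ _
  have hW := WW_le (P := P) hΦ hB 0 y₀ s.1
  have hcoef : 0 ≤ (T * l + 2 * K * n) / κ := by positivity
  have h1 : T * (v s.1 s.2 - ε) - (T * l + 2 * K * n) / κ * (2 * B) ≤
      LB v P Φ B K l κ ε n T (0, y₀) s := by
    simp only [LB]
    rw [e1]
    have := mul_le_mul_of_nonneg_left hW hcoef
    push_cast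
    linarith
  have h2 : (T * l + 2 * K * n) / κ * (2 * B) ≤ T * (2 * ε) := by
    have a1 : (T * l + 2 * K * n) / κ * (2 * B) = T * (l / κ * (2 * B)) +
        2 * K * n / κ * (2 * B) := by ring
    have a2 : T * (l / κ * (2 * B)) ≤ T * ε := mul_le_mul_of_nonneg_left hlB hTpos.le
    have a3 : 2 * K * n / κ * (2 * B) ≤ T * ε := by
      have a4 : 2 * K * n / κ * (2 * B) / ε ≤ T := hN.trans (by exact_mod_cast hTN)
      rwa [div_le_iff₀ hε] at a4
    rw [a1]
    linarith
  have h3 : T * (v s.1 s.2 - 3 * ε) ≤ total (Function.uncurry u) σ' τ T 0 Fin.elim0 s := by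
    refine le_trans ?_ (h1.trans hmain)
    linarith
  rw [avgPayoff, one_div, inv_mul_eq_div, le_div_iff₀ hTpos]
  linarith

end Two

end GamblingGame
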