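import Pool.Agent.Helper98.Gamble.Defs

open MeasureTheory Set Filter Topology
open scoped NNReal

set_option linter.unusedSectionVars false

namespace GamblingGame

universe u v w

section House

variable {X : Type u} [MetricSpace X] [CompactSpace X] [MeasurableSpace X] [BorelSpace X]

lemma integrable_cont {f : X → ℝ} (hf : Continuous f) (p : Measure X) [IsFiniteMeasure p] :
    Integrable f p := by
  obtain ⟨C, hC⟩ := (isCompact_range hf).isBounded.exists_norm_le
  exact Integrable.of_bound hf.aestronglyMeasurable C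
    (Eventually.of_forall fun x => hC _ (mem_range_self x))

lemma continuous_int {f : X → ℝ} (hf : Continuous f) :
    Continuous fun p : ProbabilityMeasure X => ∫ z, f z ∂(p : Measure X) :=
  ProbabilityMeasure.continuous_integral_continuousMap (⟨f, hf⟩ : C(X, ℝ))

lemma int_mono {f g : X → ℝ} (hf : Continuous f) (hg : Continuous g) (h : ∀ x, f x ≤ g x)
    (p : Measure X) [IsFiniteMeasure p] : ∫ z, f z ∂p ≤ ∫ z, g z ∂p :=
  integral_mono (integrable_cont hf p) (integrable_cont hg p) h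

lemma int_le_add {f g : X → ℝ} (hf : Continuous f) (hg : Continuous g) {c : ℝ}
    (h : ∀ x, f x ≤ g x + c)
    (p : Measure X) [IsProbabilityMeasure p] : ∫ z, f z ∂p ≤ ∫ z, g z ∂p + c := by
  have := int_mono hf (g := fun x => g x + c) (hg.add continuous_const) h p
  rw [integral_add (integrable_cont hg p) (integrable_const c)] at this
  simpa using this

lemma int_le_const {f : X → ℝ} (hf : Continuous f) {c : ℝ} (h : ∀ x, f x ≤ c)
    (p : Measure X) [IsProbabilityMeasure p] : ∫ z, f z ∂p ≤ c := by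
  have := int_mono hf (continuous_const (y := c)) h p
  simpa using this

lemma const_le_int {f : X → ℝ} (hf : Continuous f) {c : ℝ} (h : ∀ x, c ≤ f x)
    (p : Measure X) [IsProbabilityMeasure p] : c ≤ ∫ z, f z ∂p := by
  have := int_mono (continuous_const (y := c)) hf h p
  simpa using this

lemma lip_abs {f : X → ℝ} {L : ℝ≥0} (hf : LipschitzWith L f) (x y : X) :
    |f x - f y| ≤ L * dist x y := by
  have := hf.dist_le_mul x y
  rwa [Real.dist_eq] at this

lemma lip_of {f : X → ℝ} {L : ℝ≥0} (hf : ∀ x y, f x ≤ f y + L * dist x y) : LipschitzWith L f :=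
  LipschitzWith.of_le_add_mul L hf

lemma lip_le {f : X → ℝ} {L : ℝ≥0} (hf : LipschitzWith L f) (x y : X) :
    f x ≤ f y + L * dist x y := by
  have := (abs_le.1 (lip_abs hf x y)).2
  linarith

/-- Lipschitz functions and the KR bound. -/
lemma KRLe.lip {p q : ProbabilityMeasure X} {r : ℝ} (h : KRLe p q r) {f : X → ℝ} {L : ℝ≥0}
    (hf : LipschitzWith L f) :
    |∫ z, f z ∂(p : Measure X) - ∫ z, f z ∂(q : Measure X)| ≤ L * r := by
  have hr : 0 ≤ r := by
    have h0 : LipschitzWith 1 (fun _ : X => (0 : ℝ)) :=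
      (LipschitzWith.const (0 : ℝ)).weaken (by norm_num)
    have := h _ h0
    simpa using this
  rcases eq_or_lt_of_le (show (0 : ℝ≥0) ≤ L from bot_le) with hL | hL
  · -- constant function
    subst hL
    have hc : ∀ x y, f x = f y := by
      intro x y
      have := lip_abs hf x y
      simp at this
      linarith [sub_eq_zero.1 this]
    have key : ∀ p : ProbabilityMeasure X, ∀ x, ∫ z, f z ∂(p : Measure X) = f x := by
      intro p x
      have : f = fun _ => f x := by
        funext z; exact hc z x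
      rw [this]; simp
    obtain ⟨x⟩ := p.nonempty
    rw [key p x, key q x]; simp
  · have hL' : (0 : ℝ) < L := by exact_mod_cast hL
    have h1 : LipschitzWith 1 (fun z => (L : ℝ)⁻¹ * f z) := by
      apply lip_of
      intro x y
      have := lip_le hf x y
      have : (L : ℝ)⁻¹ * f x ≤ (L : ℝ)⁻¹ * (f y + L * dist x y) :=
        mul_le_mul_of_nonneg_left this (inv_nonneg.2 hL'.le)
      rw [mul_add, ← mul_assoc, inv_mul_cancel₀ hL'.ne'] at this
      simpa using this
    have := h _ h1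
    rw [integral_const_mul, integral_const_mul, ← mul_sub, abs_mul,
      abs_of_pos (inv_pos.2 hL')] at this
    rw [inv_mul_le_iff₀ hL'] at this
    exact this

lemma ext_lip {p q : ProbabilityMeasure X}
    (h : ∀ f : X → ℝ, LipschitzWith 1 f →
      ∫ z, f z ∂(p : Measure X) = ∫ z, f z ∂(q : Measure X)) : p = q := by
  have hKR : KRLe p q 0 := by
    intro f hf
    rw [h f hf]; simp
  have : Tendsto (fun _ : ℕ => p) atTop (𝓝 q) := by
    rw [tendsto_iff_forall_lipschitz_integral_tendsto]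
    rintro f - ⟨L, hL⟩
    have := hKR.lip hL
    have e : ∫ z, f z ∂(p : Measure X) = ∫ z, f z ∂(q : Measure X) := by
      have h0 : |∫ z, f z ∂(p : Measure X) - ∫ z, f z ∂(q : Measure X)| ≤ 0 := by simpa using this
      exact sub_eq_zero.1 (abs_eq_zero.1 (le_antisymm h0 (abs_nonneg _)))
    rw [e]
    exact tendsto_const_nhds
  exact tendsto_nhds_unique tendsto_const_nhds this

/-- The graph of a house is closed. -/
lemma IsHouse.isClosed_graph {Γ : X → Set (ProbabilityMeasure X)} (hΓ : IsHouse Γ) :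
    IsClosed {z : X × ProbabilityMeasure X | z.2 ∈ Γ z.1} := by
  rw [isClosed_iff_clusterPt]
  rintro ⟨x, p⟩ hz
  rw [clusterPt_iff_ultrafilter] at hz
  obtain ⟨U, hUs, hU⟩ := hz
  rw [le_principal_iff] at hUs
  -- choose p' in Γ x close to z.2
  have hch : ∀ z : X × ProbabilityMeasure X, ∃ p' ∈ Γ x, z.2 ∈ Γ z.1 → KRLe z.2 p' (dist z.1 x) := by
    intro z
    by_cases hz : z.2 ∈ Γ z.1
    · obtain ⟨p', hp', h⟩ := hΓ.nonexpansive z.1 x z.2 hz
      exact ⟨p', hp', fun _ => h⟩
    · exact ⟨_, hΓ.leavable x, fun h => absurd h hz⟩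
  choose g hg hg2 using hch
  have hcl : Γ x ∈ U.map g := by
    rw [Ultrafilter.mem_map]
    exact Filter.mem_of_superset Filter.univ_mem fun z _ => hg z
  obtain ⟨p', hp', hlim⟩ := (hΓ.compact x).ultrafilter_le_nhds (U.map g) (by
    rwa [le_principal_iff])
  have hlim' : Tendsto g U (𝓝 p') := hlim
  have hfst : Tendsto (fun z : X × ProbabilityMeasure X => z.1) U (𝓝 x) :=
    (continuous_fst.tendsto (x, p)).mono_left hU
  have hsnd : Tendsto (fun z : X × ProbabilityMeasure X => z.2) U (𝓝 p) :=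
    (continuous_snd.tendsto (x, p)).mono_left hU
  have : p = p' := by
    apply ext_lip
    intro f hf
    have h1 : Tendsto (fun z : X × ProbabilityMeasure X => ∫ w, f w ∂(z.2 : Measure X)) U
        (𝓝 (∫ w, f w ∂(p : Measure X))) :=
      ((continuous_int hf.continuous).tendsto p).comp hsnd
    have h2 : Tendsto (fun z : X × ProbabilityMeasure X => ∫ w, f w ∂(g z : Measure X)) U
        (𝓝 (∫ w, f w ∂(p' : Measure X))) :=
      ((continuous_int hf.continuous).tendsto p').comp hlim'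
    have h3 : Tendsto (fun z : X × ProbabilityMeasure X =>
        ∫ w, f w ∂(z.2 : Measure X) - ∫ w, f w ∂(g z : Measure X)) U (𝓝 0) := by
      have hd : Tendsto (fun z : X × ProbabilityMeasure X => dist z.1 x) U (𝓝 0) := by
        have := hfst.dist (tendsto_const_nhds (x := x))
        simpa using this
      apply squeeze_zero_norm' _ hd
      filter_upwards [hUs] with z hz
      rw [Real.norm_eq_abs]
      exact hg2 z hz f hf
    have h4 := tendsto_nhds_unique h3 (h1.sub h2)
    linarith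
  rw [mem_setOf_eq, this]
  exact hp'

/-- The one-step operator. -/
noncomputable def G (Γ : X → Set (ProbabilityMeasure X)) (f : X → ℝ) (x : X) : ℝ :=
  ⨆ p : Γ x, ∫ z, f z ∂((p : ProbabilityMeasure X) : Measure X)

variable {Γ : X → Set (ProbabilityMeasure X)} (hΓ : IsHouse Γ)

include hΓ

lemma exists_G {f : X → ℝ} (hf : Continuous f) (x : X) :
    ∃ p ∈ Γ x, ∫ z, f z ∂(p : Measure X) = G Γ f x ∧
      ∀ q ∈ Γ x, ∫ z, f z ∂(q : Measure X) ≤ G Γ f x := by
  obtain ⟨p, hp, hmax⟩ := (hΓ.compact x).exists_isMaxOn ⟨_, hΓ.leavable x⟩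
    (continuous_int hf).continuousOn
  have hb : BddAbove (range fun p : Γ x => ∫ z, f z ∂((p : ProbabilityMeasure X) : Measure X)) :=
    ⟨∫ z, f z ∂(p : Measure X), by rintro _ ⟨q, rfl⟩; exact hmax q.2⟩
  have : Nonempty (Γ x) := ⟨⟨p, hp⟩⟩
  refine ⟨p, hp, le_antisymm (le_ciSup hb ⟨p, hp⟩) (ciSup_le fun q => hmax q.2),
    fun q hq => le_ciSup hb ⟨q, hq⟩⟩

lemma le_G {f : X → ℝ} (hf : Continuous f) {x : X} {p : ProbabilityMeasure X} (hp : p ∈ Γ x) :
    ∫ z, f z ∂(p : Measure X) ≤ G Γ f x := by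
  obtain ⟨q, -, -, h⟩ := exists_G hΓ hf x
  exact h p hp

lemma G_le {f : X → ℝ} (hf : Continuous f) {x : X} {c : ℝ}
    (h : ∀ p ∈ Γ x, ∫ z, f z ∂(p : Measure X) ≤ c) : G Γ f x ≤ c := by
  obtain ⟨q, hq, e, -⟩ := exists_G hΓ hf x
  rw [← e]; exact h q hq

lemma self_le_G {f : X → ℝ} (hf : Continuous f) (x : X) : f x ≤ G Γ f x := by
  have := le_G hΓ hf (hΓ.leavable x)
  simpa [diracProba, integral_dirac] using this

lemma G_le_add {f g : X → ℝ} (hf : Continuous f) (hg : Continuous g) {c : ℝ}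
    (h : ∀ x, f x ≤ g x + c) (x : X) : G Γ f x ≤ G Γ g x + c := by
  apply G_le hΓ hf
  intro p hp
  have h1 := int_le_add hf hg h (p : Measure X)
  have h2 := le_G hΓ hg hp
  linarith

lemma G_mono {f g : X → ℝ} (hf : Continuous f) (hg : Continuous g)
    (h : ∀ x, f x ≤ g x) (x : X) : G Γ f x ≤ G Γ g x := by
  have := G_le_add hΓ hf hg (c := 0) (by simpa using h) x
  simpa using this

lemma G_lip {f : X → ℝ} {L : ℝ≥0} (hf : LipschitzWith L f) : LipschitzWith L (G Γ f) := by
  apply lip_of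
  intro x y
  apply G_le hΓ hf.continuous
  intro p hp
  obtain ⟨q, hq, hKR⟩ := hΓ.nonexpansive x y p hp
  have h1 := (abs_le.1 (hKR.lip hf)).2
  have h2 := le_G hΓ hf.continuous hq
  linarith

lemma iter_lip {f : X → ℝ} {L : ℝ≥0} (hf : LipschitzWith L f) (n : ℕ) :
    LipschitzWith L ((G Γ)^[n] f) := by
  induction n with
  | zero => simpa using hf
  | succ n ih => rw [Function.iterate_succ_apply']; exact G_lip hΓ ih

lemma iter_mono_n {f : X → ℝ} {L : ℝ≥0} (hf : LipschitzWith L f) (x : X) :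
    Monotone fun n => (G Γ)^[n] f x := by
  apply monotone_nat_of_le_succ
  intro n
  rw [Function.iterate_succ_apply']
  exact self_le_G hΓ (iter_lip hΓ hf n).continuous x

lemma iter_le {f h : X → ℝ} {L M : ℝ≥0} (hf : LipschitzWith L f) (hh : LipschitzWith M h)
    (hex : ∀ x, G Γ h x ≤ h x) (hfh : ∀ x, f x ≤ h x) (n : ℕ) (x : X) :
    (G Γ)^[n] f x ≤ h x := by
  induction n generalizing x with
  | zero => simpa using hfh x
  | succ n ih =>
    rw [Function.iterate_succ_apply']
    exact (G_mono hΓ (iter_lip hΓ hf n).continuous hh.continuous ih x).trans (hex x)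

lemma iter_le_const {f : X → ℝ} {L : ℝ≥0} (hf : LipschitzWith L f) {C : ℝ}
    (hC : ∀ x, f x ≤ C) (n : ℕ) (x : X) : (G Γ)^[n] f x ≤ C := by
  apply iter_le hΓ hf (LipschitzWith.const C) _ hC
  intro y
  apply G_le hΓ continuous_const
  intro p _
  simp

lemma iter_le_add {f g : X → ℝ} {L M : ℝ≥0} (hf : LipschitzWith L f) (hg : LipschitzWith M g)
    {c : ℝ} (h : ∀ x, f x ≤ g x + c) (n : ℕ) (x : X) :
    (G Γ)^[n] f x ≤ (G Γ)^[n] g x + c := by
  induction n generalizing x with
  | zero => simpa using h x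
  | succ n ih =>
    rw [Function.iterate_succ_apply', Function.iterate_succ_apply']
    exact G_le_add hΓ (iter_lip hΓ hf n).continuous (iter_lip hΓ hg n).continuous ih x

omit hΓ in
lemma exists_bound {f : X → ℝ} (hf : Continuous f) : ∃ C : ℝ, ∀ x, |f x| ≤ C := by
  obtain ⟨C, hC⟩ := (isCompact_range hf).isBounded.exists_norm_le
  exact ⟨C, fun x => hC _ (mem_range_self x)⟩

omit hΓ in
/-- The limit operator. -/
noncomputable def Ginf (Γ : X → Set (ProbabilityMeasure X)) (f : X → ℝ) (x : X) : ℝ :=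
  ⨆ n : ℕ, (G Γ)^[n] f x

lemma bdd_iter {f : X → ℝ} {L : ℝ≥0} (hf : LipschitzWith L f) (x : X) :
    BddAbove (range fun n => (G Γ)^[n] f x) := by
  obtain ⟨C, hC⟩ := exists_bound hf.continuous
  exact ⟨C, by rintro _ ⟨n, rfl⟩; exact iter_le_const hΓ hf (fun x => (le_abs_self _).trans (hC x)) n x⟩

lemma iter_le_Ginf {f : X → ℝ} {L : ℝ≥0} (hf : LipschitzWith L f) (n : ℕ) (x : X) :
    (G Γ)^[n] f x ≤ Ginf Γ f x :=
  le_ciSup (bdd_iter hΓ hf x) n

lemma self_le_Ginf {f : X → ℝ} {L : ℝ≥0} (hf : LipschitzWith L f) (x : X) :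
    f x ≤ Ginf Γ f x := iter_le_Ginf hΓ hf 0 x

omit [MeasurableSpace X] [BorelSpace X] hΓ in
lemma Ginf_le [MeasurableSpace X] [BorelSpace X] {Γ : X → Set (ProbabilityMeasure X)}
    {f : X → ℝ} {x : X} {c : ℝ} (h : ∀ n, (G Γ)^[n] f x ≤ c) : Ginf Γ f x ≤ c :=
  ciSup_le h

lemma tendsto_iter {f : X → ℝ} {L : ℝ≥0} (hf : LipschitzWith L f) (x : X) :
    Tendsto (fun n => (G Γ)^[n] f x) atTop (𝓝 (Ginf Γ f x)) :=
  tendsto_atTop_ciSup (iter_mono_n hΓ hf x) (bdd_iter hΓ hf x)

lemma Ginf_lip {f : X → ℝ} {L : ℝ≥0} (hf : LipschitzWith L f) : LipschitzWith L (Ginf Γ f) := by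
  apply lip_of
  intro x y
  apply Ginf_le
  intro n
  have h1 := lip_le (iter_lip hΓ hf n) x y
  have h2 := iter_le_Ginf hΓ hf n y
  linarith

lemma G_Ginf {f : X → ℝ} {L : ℝ≥0} (hf : LipschitzWith L f) (x : X) :
    G Γ (Ginf Γ f) x = Ginf Γ f x := by
  apply le_antisymm _ (self_le_G hΓ (Ginf_lip hΓ hf).continuous x)
  -- by Dini
  have hunif : TendstoUniformly (fun n => (G Γ)^[n] f) (Ginf Γ f) atTop :=
    Monotone.tendstoUniformly_of_forall_tendsto (fun n => (iter_lip hΓ hf n).continuous)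
      (fun m n hmn x => iter_mono_n hΓ hf x hmn) (Ginf_lip hΓ hf).continuous (tendsto_iter hΓ hf)
  apply le_of_forall_pos_le_add
  intro ε hε
  rw [Metric.tendstoUniformly_iff] at hunif
  obtain ⟨n, hn⟩ := (hunif ε hε).exists
  have h1 : ∀ x, Ginf Γ f x ≤ (G Γ)^[n] f x + ε := by
    intro x
    have := hn x
    rw [Real.dist_eq] at this
    linarith [(abs_lt.1 this).2]
  have h2 := G_le_add hΓ (Ginf_lip hΓ hf).continuous (iter_lip hΓ hf n).continuous h1 x
  have h3 := iter_le_Ginf hΓ hf (n + 1) x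
  rw [Function.iterate_succ_apply'] at h3
  linarith

lemma Ginf_min {f h : X → ℝ} {L M : ℝ≥0} (hf : LipschitzWith L f) (hh : LipschitzWith M h)
    (hex : ∀ x, G Γ h x ≤ h x) (hfh : ∀ x, f x ≤ h x) (x : X) : Ginf Γ f x ≤ h x :=
  Ginf_le fun n => iter_le hΓ hf hh hex hfh n x

lemma Ginf_le_add {f g : X → ℝ} {L M : ℝ≥0} (hf : LipschitzWith L f) (hg : LipschitzWith M g)
    {c : ℝ} (h : ∀ x, f x ≤ g x + c) (x : X) : Ginf Γ f x ≤ Ginf Γ g x + c := by
  apply Ginf_le
  intro n
  have h1 := iter_le_add hΓ hf hg h n x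
  have h2 := iter_le_Ginf hΓ hg n x
  linarith

lemma Ginf_le_const {f : X → ℝ} {L : ℝ≥0} (hf : LipschitzWith L f) {C : ℝ}
    (hC : ∀ x, f x ≤ C) (x : X) : Ginf Γ f x ≤ C :=
  Ginf_le fun n => iter_le_const hΓ hf hC n x

end House

end GamblingGame
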