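import Pool.Agent.Helper98.Gamble.Block

open MeasureTheory Set Filter Topology
open scoped NNReal BoundedContinuousFunction

set_option linter.unusedSectionVars false

namespace GamblingGame

universe u v w

section Auto

variable {X : Type u} {Y : Type v} [MeasurableSpace X] [MeasurableSpace Y]
variable {M : Type w} [MeasurableSpace M]

/-- Memory of an automaton reading the past states. -/
def memo (m₀ : M) (next : M → X × Y → M) : (t : ℕ) → (Fin t → Stage X Y) → M
  | 0, _ => m₀
  | t + 1, h => next (memo m₀ next t (fun i => h i.castSucc)) (h (Fin.last t)).1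

lemma memo_snoc (m₀ : M) (next : M → X × Y → M) (t : ℕ) (h : Fin t → Stage X Y)
    (a : Stage X Y) :
    memo m₀ next (t + 1) (Fin.snoc (α := fun _ => Stage X Y) h a) =
      next (memo m₀ next t h) a.1 := by
  simp [memo]

lemma measurable_memo (m₀ : M) (next : M → X × Y → M) (hn : Measurable (Function.uncurry next))
    (t : ℕ) : Measurable (memo m₀ next t) := by
  induction t with
  | zero => exact measurable_const
  | succ t ih =>
    have h1 : Measurable fun h : Fin (t + 1) → Stage X Y =>
        (memo m₀ next t (fun i => h i.castSucc), (h (Fin.last t)).1) := by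
      apply Measurable.prodMk
      · apply ih.comp
        exact measurable_pi_lambda _ fun i => measurable_pi_apply _
      · exact measurable_fst.comp (measurable_pi_apply _)
    exact hn.comp h1

lemma measurable_snoc (t : ℕ) : Measurable fun z : (Fin t → Stage X Y) × Stage X Y =>
    (Fin.snoc (α := fun _ => Stage X Y) z.1 z.2 : Fin (t + 1) → Stage X Y) := by
  apply measurable_pi_lambda
  intro i
  refine Fin.lastCases ?_ (fun j => ?_) i
  · simp only [Fin.snoc_last]
    exact measurable_snd
  · simp only [Fin.snoc_castSucc]
    exact (measurable_pi_apply j).comp measurable_fst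

lemma measurable_total {u : X × Y → ℝ} (hu : Measurable u) {σ : Rule X Y X} {τ : Rule X Y Y}
    (hσ : ∀ t, Measurable fun z : (Fin t → Stage X Y) × (X × Y) => σ t z.1 z.2)
    (hτ : ∀ t, Measurable fun z : (Fin t → Stage X Y) × (X × Y) => τ t z.1 z.2) (m t : ℕ) :
    Measurable fun z : (Fin t → Stage X Y) × (X × Y) => total u σ τ m t z.1 z.2 := by
  induction m generalizing t with
  | zero => exact measurable_const
  | succ m ih =>
    have h1 : Measurable fun z : (Fin t → Stage X Y) × (X × Y) =>
        ((⟨(σ t z.1 z.2 : Measure X).prod (τ t z.1 z.2 : Measure Y), inferInstance⟩ :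
          ProbabilityMeasure (X × Y))) := by
      apply Measurable.subtype_mk
      exact ProbabilityMeasure.measurable_fun_prod.comp ((hσ t).prodMk (hτ t))
    have h2 : Measurable (Function.uncurry fun (z : (Fin t → Stage X Y) × (X × Y)) (w : X × Y) =>
        total u σ τ m (t + 1) (Fin.snoc (α := fun _ => Stage X Y) z.1
          (z.2, (σ t z.1 z.2, τ t z.1 z.2))) w) := by
      have h3 : Measurable fun z : ((Fin t → Stage X Y) × (X × Y)) × (X × Y) =>
          ((Fin.snoc (α := fun _ => Stage X Y) z.1.1
            (z.1.2, (σ t z.1.1 z.1.2, τ t z.1.1 z.1.2)) : Fin (t + 1) → Stage X Y), z.2) := by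
        apply Measurable.prodMk _ measurable_snd
        have h4 : Measurable fun a : ((Fin t → Stage X Y) × (X × Y)) × (X × Y) =>
            ((a.1.1, (a.1.2, (σ t a.1.1 a.1.2, τ t a.1.1 a.1.2))) :
              (Fin t → Stage X Y) × Stage X Y) := by
          apply Measurable.prodMk (by fun_prop)
          apply Measurable.prodMk (by fun_prop)
          exact ((hσ t).comp measurable_fst).prodMk ((hτ t).comp measurable_fst)
        exact (measurable_snoc t).comp h4
      exact (ih (t + 1)).comp h3
    exact (hu.comp measurable_snd).add (measurable_int h1 h2)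

lemma total_abs {u : X × Y → ℝ} {σ : Rule X Y X} {τ : Rule X Y Y} {K : ℝ}
    (hK : ∀ s, |u s| ≤ K) (m t : ℕ) (h : Fin t → Stage X Y) (s : X × Y) :
    |total u σ τ m t h s| ≤ m * K := by
  have hK0 : 0 ≤ K := (abs_nonneg _).trans (hK s)
  induction m generalizing t h s with
  | zero => simp [total]
  | succ m ih =>
    simp only [total]
    push_cast
    have h1 : |∫ z, total u σ τ m (t + 1)
        (Fin.snoc (α := fun _ => Stage X Y) h (s, (σ t h s, τ t h s))) z
      ∂((σ t h s : Measure X).prod (τ t h s : Measure Y))| ≤ m * K := by
      have := norm_integral_le_of_norm_le_const (μ := (σ t h s : Measure X).prod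
        (τ t h s : Measure Y)) (f := fun z => total u σ τ m (t + 1)
        (Fin.snoc (α := fun _ => Stage X Y) h (s, (σ t h s, τ t h s))) z) (C := m * K)
        (Eventually.of_forall fun z => by
          rw [Real.norm_eq_abs]
          exact ih _ _ _)
      simpa using this
    have h2 := hK s
    calc _ ≤ |u s| + |_| := abs_add_le _ _
      _ ≤ K + m * K := add_le_add h2 h1
      _ = (m + 1) * K := by ring

/-- Lower bounds by induction along an automaton. -/
lemma total_lower {u : X × Y → ℝ} (hu : Measurable u) {K : ℝ} (hK : ∀ s, |u s| ≤ K)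
    {m₀ : M} {next : M → X × Y → M} (hn : Measurable (Function.uncurry next))
    {act : M → X × Y → ProbabilityMeasure X} (ha : Measurable (Function.uncurry act))
    (LB : ℕ → M → X × Y → ℝ) (hLBm : ∀ m, Measurable (Function.uncurry (LB m)))
    (hLBb : ∀ m, ∀ c, ∃ C, ∀ s, |LB m c s| ≤ C) (hLB0 : ∀ c s, LB 0 c s ≤ 0)
    {Q : Y → Set (ProbabilityMeasure Y)}
    (hstep : ∀ m c s, ∀ q ∈ Q s.2, LB (m + 1) c s ≤ u s +
      ∫ z, LB m (next c s) z ∂((act c s : Measure X).prod (q : Measure Y)))
    {τ : Rule X Y Y} (hτ : IsStrategy₂ Q τ) (m t : ℕ) (h : Fin t → Stage X Y) (s : X × Y) :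
    LB m (memo m₀ next t h) s ≤
      total u (fun t h s => act (memo m₀ next t h) s) τ m t h s := by
  induction m generalizing t h s with
  | zero => exact hLB0 _ _
  | succ m ih =>
    have hσ : ∀ t, Measurable fun z : (Fin t → Stage X Y) × (X × Y) =>
        act (memo m₀ next t z.1) z.2 := fun t =>
      ha.comp (((measurable_memo m₀ next hn t).comp measurable_fst).prodMk measurable_snd)
    refine (hstep m _ s _ (hτ.1 t h s)).trans ?_
    simp only [total]
    gcongr
    · -- integrability of LB
      obtain ⟨C, hC⟩ := hLBb m (next (memo m₀ next t h) s)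
      apply Integrable.of_bound (C := C)
      · exact ((hLBm m).comp (by fun_prop : Measurable fun z : X × Y =>
          (next (memo m₀ next t h) s, z))).aestronglyMeasurable
      · exact Eventually.of_forall hC
    · apply Integrable.of_bound (C := m * K)
      · apply Measurable.aestronglyMeasurable
        exact (measurable_total hu hσ hτ.2 m (t + 1)).comp (by fun_prop :
          Measurable fun z : X × Y => ((Fin.snoc (α := fun _ => Stage X Y) h
            (s, (act (memo m₀ next t h) s, τ t h s)) : Fin (t + 1) → Stage X Y), z))
      · exact Eventually.of_forall fun z => total_abs hK _ _ _ _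
    · intro z
      have := ih (t + 1) (Fin.snoc (α := fun _ => Stage X Y) h
            (s, (act (memo m₀ next t h) s, τ t h s))) z
      rw [memo_snoc] at this
      exact this

end Auto

end GamblingGame
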