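import Pool.Agent.Helper98.Gamble.Op

open MeasureTheory Set Filter Topology
open scoped NNReal

set_option linter.unusedSectionVars false

namespace GamblingGame

universe u v w

section House

variable {X : Type u} [MetricSpace X] [CompactSpace X] [MeasurableSpace X] [BorelSpace X]

/-- Joint continuity of the integral. -/
lemma continuous_int_joint {Z : Type w} [TopologicalSpace Z] {F : Z → X → ℝ}
    (hF : Continuous (Function.uncurry F)) {P : Z → ProbabilityMeasure X} (hP : Continuous P) :
    Continuous fun z => ∫ x, F z x ∂(P z : Measure X) := by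
  have hFz : ∀ z, Continuous (F z) := fun z => hF.comp (by fun_prop : Continuous fun x => (z, x))
  let c : Z → C(X, ℝ) := fun z => ⟨F z, hFz z⟩
  have hc : Continuous c := ContinuousMap.continuous_of_continuous_uncurry c hF
  rw [continuous_iff_continuousAt]
  intro z₀
  rw [Metric.continuousAt_iff']
  intro ε hε
  have h1 : ∀ᶠ z in 𝓝 z₀, dist (c z) (c z₀) < ε / 2 :=
    (Metric.continuousAt_iff'.1 hc.continuousAt) (ε / 2) (by positivity)
  have h2 : ∀ᶠ z in 𝓝 z₀, dist (∫ x, F z₀ x ∂(P z : Measure X))
      (∫ x, F z₀ x ∂(P z₀ : Measure X)) < ε / 2 :=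
    (Metric.continuousAt_iff'.1 ((continuous_int (hFz z₀)).comp hP).continuousAt) (ε / 2)
      (by positivity)
  filter_upwards [h1, h2] with z hz1 hz2
  have h3 : dist (∫ x, F z x ∂(P z : Measure X)) (∫ x, F z₀ x ∂(P z : Measure X)) ≤
      dist (c z) (c z₀) := by
    have hpt : ∀ x, |F z x - F z₀ x| ≤ dist (c z) (c z₀) := by
      intro x
      have := ContinuousMap.dist_apply_le_dist (f := c z) (g := c z₀) x
      rwa [Real.dist_eq] at this
    rw [Real.dist_eq, abs_sub_le_iff]
    constructor
    · have := int_le_add (hFz z) (hFz z₀) (c := dist (c z) (c z₀))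
        (fun x => by linarith [(abs_le.1 (hpt x)).2]) (P z : Measure X)
      linarith
    · have := int_le_add (hFz z₀) (hFz z) (c := dist (c z) (c z₀))
        (fun x => by linarith [(abs_le.1 (hpt x)).1]) (P z : Measure X)
      linarith
  calc dist (∫ x, F z x ∂(P z : Measure X)) (∫ x, F z₀ x ∂(P z₀ : Measure X))
      ≤ dist (∫ x, F z x ∂(P z : Measure X)) (∫ x, F z₀ x ∂(P z : Measure X)) +
        dist (∫ x, F z₀ x ∂(P z : Measure X)) (∫ x, F z₀ x ∂(P z₀ : Measure X)) :=
          dist_triangle _ _ _
    _ < ε / 2 + ε / 2 := add_lt_add (h3.trans_lt hz1) hz2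
    _ = ε := by ring

/-! ### Mixtures -/

/-- Mixture of finitely many probability measures. -/
noncomputable def mixN {ι : Type*} (S : Finset ι) (a : ι → ℝ≥0) (ha : ∑ i ∈ S, a i = 1)
    (p : ι → ProbabilityMeasure X) : ProbabilityMeasure X :=
  ⟨∑ i ∈ S, a i • (p i : Measure X), ⟨by
    have h1 : (1 : ENNReal) = ∑ i ∈ S, (a i : ENNReal) := by
      rw [← ENNReal.coe_one, ← ha]; push_cast; rfl
    rw [Measure.finsetSum_apply, h1]
    apply Finset.sum_congr rfl
    intro i _
    rw [Measure.smul_apply, measure_univ, ENNReal.smul_def, smul_eq_mul, mul_one]⟩⟩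

lemma int_mixN {ι : Type*} (S : Finset ι) (a : ι → ℝ≥0) (ha : ∑ i ∈ S, a i = 1)
    (p : ι → ProbabilityMeasure X) {f : X → ℝ} (hf : Continuous f) :
    ∫ z, f z ∂(mixN S a ha p : Measure X) =
      ∑ i ∈ S, (a i : ℝ) * ∫ z, f z ∂(p i : Measure X) := by
  change ∫ z, f z ∂(∑ i ∈ S, a i • (p i : Measure X)) = _
  rw [integral_finsetSum_measure]
  · apply Finset.sum_congr rfl
    intro i _
    rw [integral_smul_nnreal_measure]
    rfl
  · intro i _
    exact integrable_cont hf _

/-- Binary mixture. -/
noncomputable def mix2 (a b : ℝ≥0) (hab : a + b = 1) (p q : ProbabilityMeasure X) :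
    ProbabilityMeasure X :=
  ⟨a • (p : Measure X) + b • (q : Measure X), ⟨by
    simp only [Measure.add_apply, Measure.smul_apply, measure_univ, ENNReal.smul_def, smul_eq_mul,
      mul_one]
    rw [← ENNReal.coe_add, hab, ENNReal.coe_one]⟩⟩

lemma int_mix2 (a b : ℝ≥0) (hab : a + b = 1) (p q : ProbabilityMeasure X) {f : X → ℝ}
    (hf : Continuous f) :
    ∫ z, f z ∂(mix2 a b hab p q : Measure X) =
      a * ∫ z, f z ∂(p : Measure X) + b * ∫ z, f z ∂(q : Measure X) := by
  change ∫ z, f z ∂(a • (p : Measure X) + b • (q : Measure X)) = _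
  rw [integral_add_measure (integrable_cont hf _) (integrable_cont hf _),
    integral_smul_nnreal_measure, integral_smul_nnreal_measure]
  rfl

lemma continuous_mix2 (a b : ℝ≥0) (hab : a + b = 1) :
    Continuous fun z : ProbabilityMeasure X × ProbabilityMeasure X => mix2 a b hab z.1 z.2 := by
  rw [ProbabilityMeasure.continuous_iff_forall_continuousMap_continuous_integral]
  intro f
  have : (fun z : ProbabilityMeasure X × ProbabilityMeasure X =>
      ∫ x, f x ∂(mix2 a b hab z.1 z.2 : Measure X)) = fun z =>
      a * ∫ x, f x ∂(z.1 : Measure X) + b * ∫ x, f x ∂(z.2 : Measure X) := by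
    funext z
    exact int_mix2 a b hab z.1 z.2 f.continuous
  rw [this]
  exact (continuous_const.mul ((continuous_int f.continuous).comp continuous_fst)).add
    (continuous_const.mul ((continuous_int f.continuous).comp continuous_snd))

lemma mem_mixtures {Γ : X → Set (ProbabilityMeasure X)} {ι : Type*} (S : Finset ι) (a : ι → ℝ≥0)
    (ha : ∑ i ∈ S, a i = 1) (x : ι → X) (p : ι → ProbabilityMeasure X)
    (hp : ∀ i, p i ∈ Γ (x i)) :
    (mixN S a ha (fun i => diracProba (x i)), mixN S a ha p) ∈ mixtures Γ := by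
  classical
  let e := S.equivFin
  refine ⟨S.card, fun j => a (e.symm j), fun j => x (e.symm j), fun j => p (e.symm j), ?_,
    fun j => hp _, ?_, ?_⟩
  · rw [← ha, ← Finset.sum_coe_sort S a]
    exact Equiv.sum_comp e.symm (fun i : S => a i)
  · change ∑ i ∈ S, a i • ((diracProba (x i) : ProbabilityMeasure X) : Measure X) = _
    rw [← Finset.sum_coe_sort S (fun i => a i • ((diracProba (x i) : ProbabilityMeasure X) :
      Measure X))]
    exact (Equiv.sum_comp e.symm (fun i : S => a i • ((diracProba (x i) : ProbabilityMeasure X) :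
      Measure X))).symm
  · change ∑ i ∈ S, a i • (p i : Measure X) = _
    rw [← Finset.sum_coe_sort S (fun i => a i • (p i : Measure X))]
    exact (Equiv.sum_comp e.symm (fun i : S => a i • (p i : Measure X))).symm

lemma mix2_mixtures {Γ : X → Set (ProbabilityMeasure X)} (a b : ℝ≥0) (hab : a + b = 1)
    {π π' : ProbabilityMeasure X × ProbabilityMeasure X} (h : π ∈ mixtures Γ)
    (h' : π' ∈ mixtures Γ) :
    (mix2 a b hab π.1 π'.1, mix2 a b hab π.2 π'.2) ∈ mixtures Γ := by
  obtain ⟨n, c, x, p, hc, hp, h1, h2⟩ := h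
  obtain ⟨n', c', x', p', hc', hp', h1', h2'⟩ := h'
  refine ⟨n + n', Fin.append (fun i => a * c i) (fun i => b * c' i), Fin.append x x',
    Fin.append p p', ?_, ?_, ?_, ?_⟩
  · rw [Fin.sum_univ_add]
    simp only [Fin.append_left, Fin.append_right]
    rw [← Finset.mul_sum, ← Finset.mul_sum, hc, hc', mul_one, mul_one, hab]
  · intro i
    refine Fin.addCases (fun j => ?_) (fun j => ?_) i
    · simpa using hp j
    · simpa using hp' j
  · change a • (π.1 : Measure X) + b • (π'.1 : Measure X) = _
    rw [Fin.sum_univ_add]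
    simp only [Fin.append_left, Fin.append_right]
    rw [h1, h1', Finset.smul_sum, Finset.smul_sum]
    simp only [mul_smul]
  · change a • (π.2 : Measure X) + b • (π'.2 : Measure X) = _
    rw [Fin.sum_univ_add]
    simp only [Fin.append_left, Fin.append_right]
    rw [h2, h2', Finset.smul_sum, Finset.smul_sum]
    simp only [mul_smul]

lemma mix2_closure {Γ : X → Set (ProbabilityMeasure X)} (a b : ℝ≥0) (hab : a + b = 1)
    {π π' : ProbabilityMeasure X × ProbabilityMeasure X} (h : π ∈ closure (mixtures Γ))
    (h' : π' ∈ closure (mixtures Γ)) :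
    (mix2 a b hab π.1 π'.1, mix2 a b hab π.2 π'.2) ∈ closure (mixtures Γ) := by
  refine map_mem_closure₂ (f := fun z w : ProbabilityMeasure X × ProbabilityMeasure X =>
    (mix2 a b hab z.1 w.1, mix2 a b hab z.2 w.2)) ?_ h h' (fun z hz w hw =>
    mix2_mixtures a b hab hz hw)
  have hc := continuous_mix2 (X := X) a b hab
  exact (hc.comp ((continuous_fst.comp continuous_fst).prodMk
    (continuous_fst.comp continuous_snd))).prodMk
    (hc.comp ((continuous_snd.comp continuous_fst).prodMk (continuous_snd.comp continuous_snd)))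

/-- Approximation of a measure by finitely supported ones, together with kernels. -/
lemma exists_approx {Γ : X → Set (ProbabilityMeasure X)} (μ : ProbabilityMeasure X)
    (s : X → ProbabilityMeasure X) (hs : ∀ x, s x ∈ Γ x) :
    ∃ ν : ProbabilityMeasure X, ν ∈ extension Γ μ ∧
      ∀ f g : X → ℝ, Continuous f → Continuous g → (∀ x, ∫ z, f z ∂(s x : Measure X) = g x) →
        ∫ z, f z ∂(ν : Measure X) = ∫ z, g z ∂(μ : Measure X) := by
  classical
  obtain ⟨x₀⟩ := μ.nonempty
  have : Nonempty X := ⟨x₀⟩
  let sf : ℕ → SimpleFunc X X := fun N => SimpleFunc.nearestPt (TopologicalSpace.denseSeq X) N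
  have hsf : ∀ x, Tendsto (fun N => sf N x) atTop (𝓝 x) := by
    intro x
    apply SimpleFunc.tendsto_nearestPt
    exact (TopologicalSpace.denseRange_denseSeq X).closure_range ▸ mem_univ x
  let a : ℕ → X → ℝ≥0 := fun N z => ((μ : Measure X) (sf N ⁻¹' {z})).toNNReal
  have hint : ∀ (N : ℕ) (f : X → ℝ), ∑ z ∈ (sf N).range, (a N z : ℝ) * f z =
      ∫ z, f (sf N z) ∂(μ : Measure X) := by
    intro N f
    have h1 : (fun z => f (sf N z)) = fun z => ∑ w ∈ (sf N).range,
        (sf N ⁻¹' {w}).indicator (fun _ => f w) z := by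
      funext z
      rw [Finset.sum_eq_single (sf N z)]
      · rw [indicator_of_mem]; simp
      · intro w _ hw
        rw [indicator_of_notMem]
        simpa using Ne.symm hw
      · intro h
        exact absurd ((sf N).mem_range_self z) h
    rw [h1, integral_finsetSum]
    · apply Finset.sum_congr rfl
      intro w _
      rw [integral_indicator_const _ ((sf N).measurableSet_preimage _)]
      simp only [a, smul_eq_mul, Measure.real]
      rfl
    · intro w _
      exact (integrable_const _).indicator ((sf N).measurableSet_preimage _)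
  have ha : ∀ N, ∑ z ∈ (sf N).range, a N z = 1 := by
    intro N
    have := hint N (fun _ => 1)
    simp only [mul_one, integral_const, probReal_univ, smul_eq_mul] at this
    exact_mod_cast this
  let μN : ℕ → ProbabilityMeasure X := fun N =>
    mixN (sf N).range (a N) (ha N) (fun z => diracProba z)
  let νN : ℕ → ProbabilityMeasure X := fun N => mixN (sf N).range (a N) (ha N) s
  have hmem : ∀ N, (μN N, νN N) ∈ mixtures Γ := fun N =>
    mem_mixtures (sf N).range (a N) (ha N) (fun z => z) s hs
  have hμint : ∀ N (f : X → ℝ), Continuous f →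
      ∫ z, f z ∂(μN N : Measure X) = ∫ z, f (sf N z) ∂(μ : Measure X) := by
    intro N f hf
    rw [int_mixN _ _ _ _ hf, ← hint N f]
    apply Finset.sum_congr rfl
    intro z _
    simp [diracProba, integral_dirac]
  have hlim : ∀ f : X → ℝ, Continuous f →
      Tendsto (fun N => ∫ z, f (sf N z) ∂(μ : Measure X)) atTop (𝓝 (∫ z, f z ∂(μ : Measure X))) := by
    intro f hf
    obtain ⟨C, hC⟩ := exists_bound hf
    apply tendsto_integral_of_dominated_convergence (fun _ => C)
    · intro N
      exact (hf.measurable.comp (sf N).measurable).aestronglyMeasurable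
    · exact integrable_const C
    · intro N
      exact Eventually.of_forall fun z => hC _
    · exact Eventually.of_forall fun z => (hf.tendsto z).comp (hsf z)
  have hμlim : Tendsto μN atTop (𝓝 μ) := by
    rw [ProbabilityMeasure.tendsto_iff_forall_integral_tendsto]
    intro f
    have : (fun N => ∫ z, f z ∂(μN N : Measure X)) = fun N => ∫ z, f (sf N z) ∂(μ : Measure X) := by
      funext N; exact hμint N f f.continuous
    rw [this]
    exact hlim f f.continuous
  -- an ultrafilter
  let U : Ultrafilter ℕ := Ultrafilter.of atTop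
  have hU : (U : Filter ℕ) ≤ atTop := Ultrafilter.of_le atTop
  obtain ⟨ν, -, hν⟩ := (isCompact_univ (X := ProbabilityMeasure X)).ultrafilter_le_nhds (U.map νN)
    (by simp)
  have hν' : Tendsto νN U (𝓝 ν) := hν
  refine ⟨ν, ?_, ?_⟩
  · have : Tendsto (fun N => (μN N, νN N)) U (𝓝 (μ, ν)) := (hμlim.mono_left hU).prodMk_nhds hν'
    exact mem_closure_of_tendsto this (Eventually.of_forall hmem)
  · intro f g hf hg hfg
    have h1 : Tendsto (fun N => ∫ z, f z ∂(νN N : Measure X)) U (𝓝 (∫ z, f z ∂(ν : Measure X))) :=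
      ((continuous_int hf).tendsto ν).comp hν'
    have h2 : ∀ N, ∫ z, f z ∂(νN N : Measure X) = ∫ z, g (sf N z) ∂(μ : Measure X) := by
      intro N
      rw [int_mixN _ _ _ _ hf, ← hint N g]
      apply Finset.sum_congr rfl
      intro z _
      rw [hfg]
    simp_rw [h2] at h1
    exact tendsto_nhds_unique h1 ((hlim g hg).mono_left hU)

end House

end GamblingGame
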