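import Pool.Agent.Helper98.Gamble.Exc

open MeasureTheory Set Filter Topology
open scoped NNReal BoundedContinuousFunction

set_option linter.unusedSectionVars false

namespace GamblingGame

universe u v w

/-- Measurable selection from closed graphs with values in a compact metrizable space. -/
theorem exists_selection {T : Type u} [TopologicalSpace T] [MeasurableSpace T] [BorelSpace T]
    {K : Type v} [TopologicalSpace K] [CompactSpace K] [TopologicalSpace.MetrizableSpace K]
    [Nonempty K] {A : Set (T × K)} (hA : IsClosed A) (hne : ∀ t, ∃ k, (t, k) ∈ A) :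
    ∃ (m : T → cantorSet) (π : cantorSet → K), Measurable m ∧ Continuous π ∧
      ∀ t, (t, π (m t)) ∈ A := by
  let _ : MetricSpace K := TopologicalSpace.metrizableSpaceMetric K
  obtain ⟨f, hf, hfs⟩ := exists_nat_bool_continuous_surjective_of_compact K
  let π : cantorSet → K := fun e => f (cantorSetHomeomorphNatToBool e)
  have hπ : Continuous π := hf.comp cantorSetHomeomorphNatToBool.continuous
  have hπs : Function.Surjective π := hfs.comp cantorSetHomeomorphNatToBool.surjective
  have : CompactSpace cantorSet := isCompact_iff_compactSpace.1 isCompact_cantorSet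
  let B : T → Set ℝ := fun t => Subtype.val '' {e : cantorSet | (t, π e) ∈ A}
  have hBc : ∀ t, IsCompact (B t) := fun t =>
    ((hA.preimage ((continuous_const (y := t)).prodMk hπ)).isCompact).image continuous_subtype_val
  have hBne : ∀ t, (B t).Nonempty := by
    intro t
    obtain ⟨k, hk⟩ := hne t
    obtain ⟨e, rfl⟩ := hπs k
    exact ⟨e, e, hk, rfl⟩
  have hmem : ∀ t, sInf (B t) ∈ B t := fun t => (hBc t).sInf_mem (hBne t)
  choose m hm hme using hmem
  refine ⟨m, π, ?_, hπ, hm⟩
  rw [← (MeasurableEmbedding.subtype_coe isClosed_cantorSet.measurableSet).measurable_comp_iff]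
  apply measurable_of_Iic
  intro r
  have hset : (Subtype.val ∘ m) ⁻¹' Iic r =
      Prod.fst '' {z : T × cantorSet | (z.1, π z.2) ∈ A ∧ (z.2 : ℝ) ≤ r} := by
    ext t
    constructor
    · intro h
      exact ⟨(t, m t), ⟨hm t, h⟩, rfl⟩
    · rintro ⟨⟨t', e⟩, ⟨h1, h2⟩, rfl⟩
      change ((m t' : cantorSet) : ℝ) ≤ r
      rw [hme t']
      exact (csInf_le (hBc t').bddBelow ⟨e, h1, rfl⟩).trans h2
  rw [hset]
  apply IsClosed.measurableSet
  apply isClosedMap_fst_of_compactSpace
  have h1 : IsClosed {z : T × cantorSet | (z.1, π z.2) ∈ A} :=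
    hA.preimage (continuous_fst.prodMk (hπ.comp continuous_snd))
  have h2 : IsClosed {z : T × cantorSet | (z.2 : ℝ) ≤ r} :=
    isClosed_le (continuous_subtype_val.comp continuous_snd) continuous_const
  exact h1.inter h2

section Giry

variable {X : Type u} [MetricSpace X] [CompactSpace X] [MeasurableSpace X] [BorelSpace X]

/-- Continuous maps into `Δ(X)` are measurable (for the evaluation σ-algebra). -/
lemma measurable_of_continuous {E : Type w} [TopologicalSpace E] [MeasurableSpace E] [BorelSpace E]
    {P : E → ProbabilityMeasure X} (hP : Continuous P) : Measurable P := by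
  have h : Measurable fun e => (P e : Measure X) := by
    apply Measurable.measure_of_isPiSystem_of_isProbabilityMeasure
      (S := {s : Set X | IsClosed s})
    · rw [BorelSpace.measurable_eq (α := X), borel_eq_generateFrom_isClosed]
    · exact isPiSystem_isClosed
    · intro F hF
      have hF' : IsClosed F := hF
      have hδ : ∀ n : ℕ, (0 : ℝ) < 1 / ((n : ℝ) + 1) := fun n => by positivity
      have hlim := fun e => tendsto_lintegral_thickenedIndicator_of_isClosed (P e : Measure X) hF'
        hδ tendsto_one_div_add_atTop_nhds_zero_nat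
      refine measurable_of_tendsto_metrizable (fun n => ?_) (tendsto_pi_nhds.2 hlim)
      have hc : Continuous fun e => ∫⁻ x, (thickenedIndicator (hδ n) F x : ENNReal)
          ∂(P e : Measure X) :=
        (ProbabilityMeasure.continuous_lintegral_boundedContinuousFunction
          (thickenedIndicator (hδ n) F)).comp hP
      exact hc.measurable
  exact h.subtype_mk

/-- Measurability of parametrised integrals. -/
lemma measurable_int {Z : Type w} [MeasurableSpace Z] {Ω : Type v} [MeasurableSpace Ω]
    {κ : Z → ProbabilityMeasure Ω} (hκ : Measurable κ) {g : Z → Ω → ℝ}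
    (hg : Measurable (Function.uncurry g)) :
    Measurable fun z => ∫ x, g z x ∂(κ z : Measure Ω) := by
  let K : ProbabilityTheory.Kernel Z Ω :=
    ⟨fun z => (κ z : Measure Ω), measurable_subtype_coe.comp hκ⟩
  have : ProbabilityTheory.IsMarkovKernel K := ⟨fun z => (κ z).2⟩
  exact (StronglyMeasurable.integral_kernel_prod_right (κ := K) hg.stronglyMeasurable).measurable

/-- Composition of a measure with a measurable family. -/
noncomputable def bindP (p : ProbabilityMeasure X) (κ : X → ProbabilityMeasure X)
    (hκ : Measurable κ) : ProbabilityMeasure X :=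
  ⟨(p : Measure X).bind fun z => (κ z : Measure X),
    isProbabilityMeasure_bind (measurable_subtype_coe.comp hκ).aemeasurable
      (Eventually.of_forall fun z => (κ z).2)⟩

lemma int_bindP (p : ProbabilityMeasure X) (κ : X → ProbabilityMeasure X)
    (hκ : Measurable κ) {f : X → ℝ} (hf : Continuous f) :
    ∫ z, f z ∂(bindP p κ hκ : Measure X) = ∫ z, ∫ w, f w ∂(κ z : Measure X) ∂(p : Measure X) := by
  let K : ProbabilityTheory.Kernel X X :=
    ⟨fun z => (κ z : Measure X), measurable_subtype_coe.comp hκ⟩
  have hK : ProbabilityTheory.IsMarkovKernel K := ⟨fun z => (κ z).2⟩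
  have h1 : (bindP p κ hκ : Measure X) = (p : Measure X).bind K := rfl
  have hI : Integrable f ((p : Measure X).bind K) := by
    rw [← h1]; exact integrable_cont hf _
  rw [Measure.comp_eq_comp_const_apply] at hI
  rw [h1, Measure.comp_eq_comp_const_apply, ProbabilityTheory.Kernel.integral_comp hI]
  rfl

end Giry

end GamblingGame
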