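import Pool.Agent.Helper98.Gamble.Guarantee

open MeasureTheory Set Filter Topology
open scoped NNReal BoundedContinuousFunction

set_option linter.unusedSectionVars false

namespace GamblingGame

universe u v w

section Two

variable {X : Type u} [MetricSpace X] [CompactSpace X] [MeasurableSpace X] [BorelSpace X]
variable {Y : Type v} [MetricSpace Y] [CompactSpace Y] [MeasurableSpace Y] [BorelSpace Y]
variable {Γ : X → Set (ProbabilityMeasure X)} {Λ : Y → Set (ProbabilityMeasure Y)}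
variable {v : X → Y → ℝ} {P : ℕ → X × Y → ProbabilityMeasure X} {Φ : X → ℝ} {B K l κ ε : ℝ}
  {n : ℕ} {L M : ℝ≥0}
variable (hv : Lip2 L v) (hvK : ∀ x y, |v x y| ≤ K) (hP : ∀ k, Measurable (P k))
  (hΦ : LipschitzWith M Φ) (hB : ∀ x, |Φ x| ≤ B)

include hv hvK hP in
lemma VV_int (k : ℕ) (y₀ y : Y) (p : ProbabilityMeasure X) :
    Integrable (fun x => VV v P k y₀ x y) (p : Measure X) := by
  apply Integrable.of_bound (C := K)
  · exact ((VV_meas hv hP k).comp (by fun_prop : Measurable fun x : X =>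
      (y₀, (x, y)))).aestronglyMeasurable
  · exact Eventually.of_forall fun x => VV_abs hv hvK k y₀ x y

include hP hΦ hB in
lemma WW_int [Nonempty Y] (k : ℕ) (y₀ : Y) (p : ProbabilityMeasure X) :
    Integrable (fun x => WW P Φ B k y₀ x) (p : Measure X) := by
  apply Integrable.of_bound (C := 2 * B)
  · exact ((WW_meas hP hΦ k).comp (by fun_prop : Measurable fun x : X =>
      (y₀, (x, y₀)))).aestronglyMeasurable
  · refine Eventually.of_forall fun x => ?_
    rw [Real.norm_eq_abs, abs_of_nonneg (WW_nonneg hΦ hB k y₀ x)]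
    exact WW_le hΦ hB k y₀ x

include hv hvK hP hΦ hB in
/-- The expectation of the bound after one joint move. -/
lemma LB_int_ge [Nonempty Y] (m k : ℕ) (y₀ y : Y) (p : ProbabilityMeasure X)
    (q : ProbabilityMeasure Y) (hq : ∀ z, v z y ≤ ∫ w, v z w ∂(q : Measure Y)) :
    m * (∫ x, VV v P k y₀ x y ∂(p : Measure X) - ε) -
      (m * l + 2 * K * n) / κ * ∫ x, WW P Φ B k y₀ x ∂(p : Measure X) - 2 * K * k ≤
    ∫ z, LB v P Φ B K l κ ε n m (k, y₀) z ∂((p : Measure X).prod (q : Measure Y)) := by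
  obtain ⟨C, hC⟩ := LB_bound (P := P) (l := l) (κ := κ) (ε := ε) (n := n) hv hvK hΦ hB m (k, y₀)
  have hI : Integrable (LB v P Φ B K l κ ε n m (k, y₀))
      ((p : Measure X).prod (q : Measure Y)) := by
    apply Integrable.of_bound (C := C)
    · exact ((LB_meas hv hP hΦ m).comp (by fun_prop : Measurable fun z : X × Y =>
        ((k, y₀), z))).aestronglyMeasurable
    · exact Eventually.of_forall hC
  rw [integral_prod _ hI]
  have hin : ∀ x, m * (VV v P k y₀ x y - ε) -
      (m * l + 2 * K * n) / κ * WW P Φ B k y₀ x - 2 * K * k ≤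
      ∫ w, LB v P Φ B K l κ ε n m (k, y₀) (x, w) ∂(q : Measure Y) := by
    intro x
    have hc : LipschitzWith L fun w => VV v P k y₀ x w := hv.int_left (P k (x, y₀))
    have h1 : ∫ w, LB v P Φ B K l κ ε n m (k, y₀) (x, w) ∂(q : Measure Y) =
        m * (∫ w, VV v P k y₀ x w ∂(q : Measure Y) - ε) -
        (m * l + 2 * K * n) / κ * WW P Φ B k y₀ x - 2 * K * k := by
      simp only [LB]
      have i1 : Integrable (fun w => VV v P k y₀ x w) (q : Measure Y) :=
        integrable_cont hc.continuous _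
      have i2 : Integrable (fun w => (m : ℝ) * (VV v P k y₀ x w - ε)) (q : Measure Y) :=
        (i1.sub (integrable_const _)).const_mul _
      have i3 : Integrable (fun w => (m : ℝ) * (VV v P k y₀ x w - ε) -
          (m * l + 2 * K * n) / κ * WW P Φ B k y₀ x) (q : Measure Y) :=
        i2.sub (integrable_const _)
      rw [integral_sub i3 (integrable_const _), integral_sub i2 (integrable_const _),
        integral_const_mul, integral_sub i1 (integrable_const _)]
      simp
    rw [h1]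
    have h2 : VV v P k y₀ x y ≤ ∫ w, VV v P k y₀ x w ∂(q : Measure Y) := by
      simp only [VV]
      rw [← hv.fubini]
      exact int_mono (hv.left y).continuous (hv.int_right q).continuous hq _
    have h3 := mul_le_mul_of_nonneg_left h2 (Nat.cast_nonneg (α := ℝ) m)
    linarith
  have j1 := VV_int hv hvK hP k y₀ y p
  have j2 : Integrable (fun x => (m : ℝ) * (VV v P k y₀ x y - ε)) (p : Measure X) :=
    (j1.sub (integrable_const _)).const_mul _
  have j3 : Integrable (fun x => (m * l + 2 * K * n) / κ * WW P Φ B k y₀ x) (p : Measure X) :=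
    (WW_int hP hΦ hB k y₀ p).const_mul _
  have j4 : Integrable (fun x => (m : ℝ) * (VV v P k y₀ x y - ε) -
      (m * l + 2 * K * n) / κ * WW P Φ B k y₀ x) (p : Measure X) := j2.sub j3
  have j5 : Integrable (fun x => (m : ℝ) * (VV v P k y₀ x y - ε) -
      (m * l + 2 * K * n) / κ * WW P Φ B k y₀ x - 2 * K * k) (p : Measure X) :=
    j4.sub (integrable_const _)
  have h4 := integral_mono j5 hI.integral_prod_left hin
  refine le_trans (le_of_eq ?_) h4
  rw [integral_sub j4 (integrable_const _), integral_sub j2 j3, integral_const_mul,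
    integral_const_mul, integral_sub j1 (integrable_const _)]
  simp

include hv hvK hP hΦ hB in
/-- Inside a block. -/
lemma step_block [Nonempty Y] (hl : 0 ≤ l) (hκ : 0 < κ) (hε : 0 < ε) (m k : ℕ) (y₀ y : Y) (x : X)
    (p : ProbabilityMeasure X) (hPs : ∀ f : X → ℝ, Continuous f →
      ∫ z, f z ∂(P (k + 1) (x, y₀) : Measure X) =
        ∫ z, ∫ w, f w ∂(P k (z, y₀) : Measure X) ∂(p : Measure X))
    (q : ProbabilityMeasure Y) (hq : ∀ z, v z y ≤ ∫ w, v z w ∂(q : Measure Y))
    {a : ℝ} (ha : -K ≤ a) :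
    LB v P Φ B K l κ ε n (m + 1) (k + 1, y₀) (x, y) ≤
      a + ∫ z, LB v P Φ B K l κ ε n m (k, y₀) z ∂((p : Measure X).prod (q : Measure Y)) := by
  have h1 := LB_int_ge (l := l) (κ := κ) (ε := ε) (n := n) hv hvK hP hΦ hB m k y₀ y p q hq
  have e1 : ∫ x, VV v P k y₀ x y ∂(p : Measure X) = VV v P (k + 1) y₀ x y :=
    (hPs _ (hv.left y).continuous).symm
  have e2 : ∫ x, WW P Φ B k y₀ x ∂(p : Measure X) = WW P Φ B (k + 1) y₀ x :=
    (hPs _ (hΦ.continuous.add continuous_const)).symm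
  rw [e1, e2] at h1
  have h2 := (abs_le.1 (VV_abs (P := P) hv hvK (k + 1) y₀ x y)).2
  have h3 := WW_nonneg (P := P) hΦ hB (k + 1) y₀ x
  have h4 : 0 ≤ l / κ * WW P Φ B (k + 1) y₀ x := mul_nonneg (div_nonneg hl hκ.le) h3
  refine le_trans ?_ (add_le_add (le_refl a) h1)
  simp only [LB]
  push_cast
  have e3 : ((m + 1) * l + 2 * K * n) / κ * WW P Φ B (k + 1) y₀ x =
      (m * l + 2 * K * n) / κ * WW P Φ B (k + 1) y₀ x + l / κ * WW P Φ B (k + 1) y₀ x := by
    ring
  rw [e3]
  nlinarith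

include hv hvK hP hΦ hB in
/-- Staying put. -/
lemma step_stay [Nonempty Y] (hl : 0 ≤ l) (hκ : 0 < κ)
    (hP0 : ∀ x y, P 0 (x, y) = diracProba x) (m : ℕ) (y₀ y : Y) (x : X)
    (q : ProbabilityMeasure Y) (hq : ∀ z, v z y ≤ ∫ w, v z w ∂(q : Measure Y))
    {a : ℝ} (ha : v x y - ε ≤ a) :
    LB v P Φ B K l κ ε n (m + 1) (0, y₀) (x, y) ≤
      a + ∫ z, LB v P Φ B K l κ ε n m (0, y₀) z
        ∂(((diracProba x : ProbabilityMeasure X) : Measure X).prod (q : Measure Y)) := by
  have h1 := LB_int_ge (l := l) (κ := κ) (ε := ε) (n := n) hv hvK hP hΦ hB m 0 y₀ y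
    (diracProba x) q hq
  rw [int_dirac, int_dirac] at h1
  have e1 : VV v P 0 y₀ x y = v x y := by
    simp only [VV]; rw [hP0]; exact int_dirac _ _
  have h3 := WW_nonneg (P := P) hΦ hB 0 y₀ x
  have h4 : 0 ≤ l / κ * WW P Φ B 0 y₀ x := mul_nonneg (div_nonneg hl hκ.le) h3
  refine le_trans ?_ (add_le_add (le_refl a) h1)
  simp only [LB]
  rw [e1]
  push_cast
  have e3 : ((m + 1) * l + 2 * K * n) / κ * WW P Φ B 0 y₀ x =
      (m * l + 2 * K * n) / κ * WW P Φ B 0 y₀ x + l / κ * WW P Φ B 0 y₀ x := by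
    ring
  rw [e3]
  nlinarith

include hv hΦ hB in
/-- Starting a block. -/
lemma step_start (hK : 0 ≤ K) (hl : 0 ≤ l) (hκ : 0 < κ)
    (hP0 : ∀ x y, P 0 (x, y) = diracProba x) (m : ℕ) (y₀ y : Y) (x : X)
    (h1 : v x y - l ≤ VV v P n y x y) (h2 : WW P Φ B n y x ≤ Φ x + B - κ) :
    LB v P Φ B K l κ ε n m (0, y₀) (x, y) ≤ LB v P Φ B K l κ ε n m (n, y) (x, y) := by
  have e1 : VV v P 0 y₀ x y = v x y := by
    simp only [VV]; rw [hP0]; exact int_dirac _ _
  have e2 : WW P Φ B 0 y₀ x = Φ x + B := by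
    simp only [WW]; rw [hP0]; exact int_dirac _ _
  simp only [LB]
  rw [e1, e2]
  have h3 : 0 ≤ (m * l + 2 * K * n) / κ := by positivity
  have h4 := mul_le_mul_of_nonneg_left h2 h3
  have h5 : (m * l + 2 * K * n) / κ * (Φ x + B - κ) =
      (m * l + 2 * K * n) / κ * (Φ x + B) - (m * l + 2 * K * n) := by
    field_simp
  rw [h5] at h4
  have h6 := mul_le_mul_of_nonneg_left h1 (Nat.cast_nonneg (α := ℝ) m)
  push_cast
  nlinarith

end Two

end GamblingGame
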