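import Pool.Agent.Helper98.Gamble.Reach

open MeasureTheory Set Filter Topology
open scoped NNReal

set_option linter.unusedSectionVars false

namespace GamblingGame

universe u v w

section House

variable {X : Type u} [MetricSpace X] [CompactSpace X] [MeasurableSpace X] [BorelSpace X]
variable {Γ : X → Set (ProbabilityMeasure X)} (hΓ : IsHouse Γ)

lemma int_dirac (f : X → ℝ) (x : X) :
    ∫ z, f z ∂((diracProba x : ProbabilityMeasure X) : Measure X) = f x := by
  simp [diracProba, integral_dirac]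

include hΓ in
lemma self_mem_extension (μ : ProbabilityMeasure X) : μ ∈ extension Γ μ := by
  obtain ⟨ν, hν, h⟩ := exists_approx μ (fun x => diracProba x) hΓ.leavable
  have : ν = μ := by
    apply ext_lip
    intro f hf
    exact h f f hf.continuous hf.continuous (fun x => int_dirac f x)
  rwa [this] at hν

include hΓ in
lemma exists_extension (μ : ProbabilityMeasure X) {f : X → ℝ} {L : ℝ≥0}
    (hf : LipschitzWith L f) :
    ∃ ν ∈ extension Γ μ, ∫ z, f z ∂(ν : Measure X) = ∫ z, G Γ f z ∂(μ : Measure X) := by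
  choose s hs hs1 _ using fun x => exists_G hΓ hf.continuous x
  obtain ⟨ν, hν, h⟩ := exists_approx μ s hs
  exact ⟨ν, hν, h f (G Γ f) hf.continuous (G_lip hΓ hf).continuous hs1⟩

include hΓ in
lemma exists_iter (n : ℕ) (μ : ProbabilityMeasure X) {f : X → ℝ} {L : ℝ≥0}
    (hf : LipschitzWith L f) :
    ∃ ν ∈ iter Γ n μ, ∫ z, f z ∂(ν : Measure X) = ∫ z, (G Γ)^[n] f z ∂(μ : Measure X) := by
  induction n generalizing μ with
  | zero => exact ⟨μ, rfl, rfl⟩
  | succ n ih =>
    rw [Function.iterate_succ']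
    obtain ⟨q, hq, e⟩ := exists_extension hΓ μ (iter_lip hΓ hf n)
    obtain ⟨ν, hν, e'⟩ := ih q
    refine ⟨ν, ?_, e'.trans e⟩
    exact mem_biUnion hq hν

include hΓ in
lemma iter_subset_succ (n : ℕ) (μ : ProbabilityMeasure X) : iter Γ n μ ⊆ iter Γ (n + 1) μ :=
  fun _ hν => mem_biUnion (self_mem_extension hΓ μ) hν

include hΓ in
lemma iter_mono' (μ : ProbabilityMeasure X) : Monotone fun n => iter Γ n μ :=
  monotone_nat_of_le_succ fun n => iter_subset_succ hΓ n μ

lemma mix2_iter (a b : ℝ≥0) (hab : a + b = 1) (n : ℕ) {μ μ' ν ν' : ProbabilityMeasure X}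
    (h : ν ∈ iter Γ n μ) (h' : ν' ∈ iter Γ n μ') :
    mix2 a b hab ν ν' ∈ iter Γ n (mix2 a b hab μ μ') := by
  induction n generalizing μ μ' with
  | zero =>
    have h1 : ν = μ := h
    have h2 : ν' = μ' := h'
    rw [h1, h2]
    exact rfl
  | succ n ih =>
    obtain ⟨q, hq, hν⟩ := mem_iUnion₂.1 h
    obtain ⟨q', hq', hν'⟩ := mem_iUnion₂.1 h'
    refine mem_iUnion₂.2 ⟨mix2 a b hab q q', ?_, ih hν hν'⟩
    exact mix2_closure a b hab hq hq'

lemma mix2_self (a b : ℝ≥0) (hab : a + b = 1) (μ : ProbabilityMeasure X) :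
    mix2 a b hab μ μ = μ := by
  apply ext_lip
  intro f hf
  rw [int_mix2 a b hab μ μ hf.continuous, ← add_mul]
  have : (a : ℝ) + b = 1 := by exact_mod_cast hab
  rw [this, one_mul]

include hΓ in
lemma mix2_reach (a b : ℝ≥0) (hab : a + b = 1) {x : X} {p q : ProbabilityMeasure X}
    (hp : p ∈ reach Γ x) (hq : q ∈ reach Γ x) : mix2 a b hab p q ∈ reach Γ x := by
  refine map_mem_closure₂ (f := fun z w : ProbabilityMeasure X => mix2 a b hab z w)
    (continuous_mix2 a b hab) hp hq ?_
  intro z hz w hw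
  obtain ⟨n, hn⟩ := mem_iUnion.1 hz
  obtain ⟨m, hm⟩ := mem_iUnion.1 hw
  refine mem_iUnion.2 ⟨max n m, ?_⟩
  have h1 := iter_mono' hΓ (diracProba x) (le_max_left n m) hn
  have h2 := iter_mono' hΓ (diracProba x) (le_max_right n m) hm
  have := mix2_iter a b hab (max n m) h1 h2
  rwa [mix2_self] at this

/-- The measures whose integrals are dominated by the limit operator. -/
def Cset (Γ : X → Set (ProbabilityMeasure X)) (x : X) : Set (ProbabilityMeasure X) :=
  {p | ∀ (f : X → ℝ) (L : ℝ≥0), LipschitzWith L f → ∫ z, f z ∂(p : Measure X) ≤ Ginf Γ f x}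

include hΓ in
lemma isClosed_Cset : IsClosed {z : X × ProbabilityMeasure X | z.2 ∈ Cset Γ z.1} := by
  have : {z : X × ProbabilityMeasure X | z.2 ∈ Cset Γ z.1} =
      ⋂ (f : X → ℝ) (L : ℝ≥0) (_ : LipschitzWith L f),
        {z : X × ProbabilityMeasure X | ∫ w, f w ∂(z.2 : Measure X) ≤ Ginf Γ f z.1} := by
    ext z
    simp only [Cset, mem_iInter]
    exact Iff.rfl
  rw [this]
  refine isClosed_iInter fun f => isClosed_iInter fun L => isClosed_iInter fun hf => ?_
  exact isClosed_le ((continuous_int hf.continuous).comp continuous_snd)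
    ((Ginf_lip hΓ hf).continuous.comp continuous_fst)

include hΓ in
/-- Hahn–Banach: the measures dominated by the limit operator are reachable. -/
lemma Cset_subset_reach (x : X) : Cset Γ x ⊆ reach Γ x := by
  classical
  intro p hp
  by_contra hcon
  have hK : IsCompact (reach Γ x) := isClosed_closure.isCompact
  -- separating functions
  let I := {f : X → ℝ // LipschitzWith 1 f}
  let V : I → Set (ProbabilityMeasure X) := fun f =>
    {q | ∫ z, f.1 z ∂(q : Measure X) ≠ ∫ z, f.1 z ∂(p : Measure X)}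
  have hVo : ∀ f, IsOpen (V f) := fun f =>
    isOpen_ne_fun (continuous_int f.2.continuous) continuous_const
  have hcov : reach Γ x ⊆ ⋃ f, V f := by
    intro q hq
    have hne : q ≠ p := by rintro rfl; exact hcon hq
    by_contra h
    apply hne
    apply ext_lip
    intro f hf
    by_contra h2
    exact h (mem_iUnion.2 ⟨⟨f, hf⟩, h2⟩)
  obtain ⟨t, ht⟩ := hK.elim_finite_subcover V hVo hcov
  -- the finite dimensional image
  let F : ProbabilityMeasure X → (t → ℝ) := fun q i => ∫ z, i.1.1 z ∂(q : Measure X)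
  have hF : Continuous F := continuous_pi fun i => continuous_int i.1.2.continuous
  have hclosed : IsClosed (F '' reach Γ x) := (hK.image hF).isClosed
  have hconv : Convex ℝ (F '' reach Γ x) := by
    rintro _ ⟨q, hq, rfl⟩ _ ⟨q', hq', rfl⟩ a b ha hb hab
    have hab' : a.toNNReal + b.toNNReal = 1 := by
      rw [← Real.toNNReal_add ha hb, hab, Real.toNNReal_one]
    refine ⟨mix2 a.toNNReal b.toNNReal hab' q q', mix2_reach hΓ _ _ _ hq hq', ?_⟩
    funext i
    simp only [F]
    rw [int_mix2 _ _ hab' q q' i.1.2.continuous, Real.coe_toNNReal a ha, Real.coe_toNNReal b hb]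
    rfl
  have hnot : F p ∉ F '' reach Γ x := by
    rintro ⟨q, hq, e⟩
    obtain ⟨f, hf, hqf⟩ := mem_iUnion₂.1 (ht hq)
    exact hqf (congrFun e ⟨f, hf⟩)
  obtain ⟨φ, c, hφ1, hφ2⟩ := geometric_hahn_banach_point_closed hconv hclosed hnot
  -- the separating function on X
  let h : X → ℝ := fun z => ∑ i : t, (-φ (Pi.single i 1)) * i.1.1 z
  have hlip : ∃ L : ℝ≥0, LipschitzWith L h := by
    refine ⟨∑ i : t, ‖φ (Pi.single i 1)‖₊, ?_⟩
    apply lip_of
    intro y z
    push_cast
    rw [Finset.sum_mul, ← Finset.sum_add_distrib]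
    apply Finset.sum_le_sum
    intro i _
    have h1 := lip_abs i.1.2 y z
    rw [NNReal.coe_one, one_mul] at h1
    have h2 : -φ (Pi.single i 1) * (i.1.1 y - i.1.1 z) ≤
        ‖φ (Pi.single i 1)‖ * dist y z := by
      calc -φ (Pi.single i 1) * (i.1.1 y - i.1.1 z) ≤ |-φ (Pi.single i 1) * (i.1.1 y - i.1.1 z)| :=
            le_abs_self _
        _ = ‖φ (Pi.single i 1)‖ * |i.1.1 y - i.1.1 z| := by
            rw [abs_mul, abs_neg, Real.norm_eq_abs]
        _ ≤ _ := mul_le_mul_of_nonneg_left h1 (norm_nonneg _)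
    linarith
  obtain ⟨L, hL⟩ := hlip
  have hint : ∀ q : ProbabilityMeasure X, ∫ z, h z ∂(q : Measure X) = -φ (F q) := by
    intro q
    have h1 : ∫ z, h z ∂(q : Measure X) =
        ∑ i : t, (-φ (Pi.single i 1)) * ∫ z, i.1.1 z ∂(q : Measure X) := by
      simp only [h]
      rw [integral_finsetSum]
      · apply Finset.sum_congr rfl
        intro i _
        rw [integral_const_mul]
      · intro i _
        exact (integrable_cont i.1.2.continuous _).const_mul _
    rw [h1]
    have h2 : F q = ∑ i : t, F q i • (Pi.single i (1 : ℝ) : t → ℝ) := by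
      funext j
      rw [Finset.sum_apply, Finset.sum_eq_single j]
      · simp
      · intro i _ hij
        simp [Pi.single_eq_of_ne (Ne.symm hij)]
      · intro h; exact absurd (Finset.mem_univ j) h
    conv_rhs => rw [h2]
    rw [map_sum, ← Finset.sum_neg_distrib]
    apply Finset.sum_congr rfl
    intro i _
    rw [map_smul, smul_eq_mul]
    simp only [F]
    ring
  have hle : Ginf Γ h x ≤ -c := by
    apply Ginf_le
    intro n
    obtain ⟨ν, hν, e⟩ := exists_iter hΓ n (diracProba x) hL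
    rw [int_dirac] at e
    rw [← e, hint]
    have : ν ∈ reach Γ x := subset_closure (mem_iUnion.2 ⟨n, hν⟩)
    have := hφ2 _ (mem_image_of_mem F this)
    linarith
  have h3 := hp h L hL
  rw [hint] at h3
  linarith

include hΓ in
lemma mem_reach_of_mem {x : X} {p : ProbabilityMeasure X} (hp : p ∈ Γ x) : p ∈ reach Γ x := by
  apply subset_closure
  refine mem_iUnion.2 ⟨1, mem_iUnion₂.2 ⟨p, ?_, rfl⟩⟩
  apply subset_closure
  refine ⟨1, fun _ => 1, fun _ => x, fun _ => p, by simp, fun _ => hp, ?_, ?_⟩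
  · simp [diracProba]
  · simp

/-- Lipschitz approximation from below of a bounded function. -/
noncomputable def approx (φ : X → ℝ) (n : ℕ) (z : X) : ℝ := ⨅ w : X, (φ w + n * dist z w)

lemma approx_bdd {φ : X → ℝ} {C : ℝ} (hC : ∀ x, |φ x| ≤ C) (n : ℕ) (z : X) :
    BddBelow (range fun w : X => φ w + n * dist z w) :=
  ⟨-C, by
    rintro _ ⟨w, rfl⟩
    have h1 := (abs_le.1 (hC w)).1
    have h2 : (0 : ℝ) ≤ n * dist z w := by positivity
    change -C ≤ φ w + n * dist z w
    linarith⟩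

lemma approx_le {φ : X → ℝ} {C : ℝ} (hC : ∀ x, |φ x| ≤ C) (n : ℕ) (z : X) :
    approx φ n z ≤ φ z := by
  have := ciInf_le (approx_bdd hC n z) z
  simpa [approx] using this

lemma le_approx {φ : X → ℝ} {n : ℕ} {z : X} {c : ℝ} (h : ∀ w, c ≤ φ w + n * dist z w) :
    c ≤ approx φ n z := by
  have : Nonempty X := ⟨z⟩
  exact le_ciInf h

lemma approx_lip {φ : X → ℝ} {C : ℝ} (hC : ∀ x, |φ x| ≤ C) (n : ℕ) :
    LipschitzWith (n : ℝ≥0) (approx φ n) := by
  apply lip_of
  intro x y
  have : approx φ n x - n * dist x y ≤ approx φ n y := by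
    apply le_approx
    intro w
    have h1 : approx φ n x ≤ φ w + n * dist x w := ciInf_le (approx_bdd hC n x) w
    have h2 : (n : ℝ) * dist x w ≤ n * (dist x y + dist y w) :=
      mul_le_mul_of_nonneg_left (dist_triangle x y w) (Nat.cast_nonneg n)
    linarith
  push_cast
  linarith

lemma approx_tendsto {φ : X → ℝ} {C : ℝ} (hC : ∀ x, |φ x| ≤ C) (hφ : LowerSemicontinuous φ)
    (z : X) : Tendsto (fun n => approx φ n z) atTop (𝓝 (φ z)) := by
  rw [Metric.tendsto_atTop]
  intro ε hε
  have hlsc := hφ z (φ z - ε / 2) (by linarith)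
  obtain ⟨δ, hδ, hball⟩ := Metric.eventually_nhds_iff.1 hlsc
  obtain ⟨N, hN⟩ := exists_nat_ge (2 * C / δ)
  refine ⟨N, fun n hn => ?_⟩
  have h1 := approx_le hC n z
  have h2 : φ z - ε / 2 ≤ approx φ n z := by
    apply le_approx
    intro w
    by_cases hw : dist w z < δ
    · have h3 := hball hw
      have h4 : (0 : ℝ) ≤ n * dist z w := by positivity
      linarith
    · push Not at hw
      rw [dist_comm] at hw
      have h3 : 2 * C ≤ n * dist z w := by
        have h4 : 2 * C / δ ≤ n := hN.trans (by exact_mod_cast hn)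
        rw [div_le_iff₀ hδ] at h4
        exact h4.trans (mul_le_mul_of_nonneg_left hw (Nat.cast_nonneg n))
      have h5 := (abs_le.1 (hC w)).1
      have h6 := (abs_le.1 (hC z)).2
      linarith
  rw [Real.dist_eq, abs_lt]
  constructor <;> linarith

include hΓ in
lemma Cset_int_Ginf {x : X} {p : ProbabilityMeasure X} (hp : p ∈ Cset Γ x) {f : X → ℝ} {L : ℝ≥0}
    (hf : LipschitzWith L f) : ∫ z, Ginf Γ f z ∂(p : Measure X) ≤ Ginf Γ f x :=
  (hp _ L (Ginf_lip hΓ hf)).trans (Ginf_min hΓ (Ginf_lip hΓ hf) (Ginf_lip hΓ hf)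
    (fun x => (G_Ginf hΓ hf x).le) (fun _ => le_rfl) x)

include hΓ in
/-- Strict potentials from strong acyclicity. -/
theorem exists_strict (hac : StronglyAcyclicMax Γ) {η : ℝ} (hη : 0 < η) :
    ∃ (Φ : X → ℝ) (L : ℝ≥0), LipschitzWith L Φ ∧ ∃ κ > 0, ∀ x, ∀ p ∈ Cset Γ x,
      ∫ z, Φ z ∂(p : Measure X) ≤ Φ x ∧
      (η ≤ ∫ z, dist x z ∂(p : Measure X) → ∫ z, Φ z ∂(p : Measure X) ≤ Φ x - κ) := by
  classical
  obtain ⟨φ, ⟨C, hC⟩, hlsc, harg⟩ := hac
  have hφle : ∀ x, ∀ q ∈ reach Γ x, ∫ z, φ z ∂(q : Measure X) ≤ φ x := by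
    intro x q hq
    have hx : diracProba x ∈ {p ∈ reach Γ x | ∀ q ∈ reach Γ x,
      ∫ z, φ z ∂(q : Measure X) ≤ ∫ z, φ z ∂(p : Measure X)} := by
      rw [harg x]; exact mem_singleton _
    have := hx.2 q hq
    rwa [int_dirac] at this
  have hφm : Measurable φ := hlsc.measurable
  have hφint : ∀ p : ProbabilityMeasure X, Integrable φ (p : Measure X) := fun p =>
    Integrable.of_bound hφm.aestronglyMeasurable C (Eventually.of_forall hC)
  -- the approximants
  let f : ℕ → X → ℝ := approx φ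
  have hf : ∀ n : ℕ, LipschitzWith (n : ℝ≥0) (f n) := approx_lip hC
  let h : ℕ → X → ℝ := fun n => Ginf Γ (f n)
  have hh : ∀ n : ℕ, LipschitzWith (n : ℝ≥0) (h n) := fun n => Ginf_lip hΓ (hf n)
  have hhle : ∀ n x, h n x ≤ φ x := by
    intro n x
    apply Ginf_le
    intro k
    induction k generalizing x with
    | zero => exact approx_le hC n x
    | succ k ih =>
      rw [Function.iterate_succ_apply']
      apply G_le hΓ (iter_lip hΓ (hf n) k).continuous
      intro p hp
      calc ∫ z, (G Γ)^[k] (f n) z ∂(p : Measure X) ≤ ∫ z, φ z ∂(p : Measure X) :=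
            integral_mono (integrable_cont (iter_lip hΓ (hf n) k).continuous _) (hφint p) ih
        _ ≤ φ x := hφle x p (mem_reach_of_mem hΓ hp)
  have hhge : ∀ n x, f n x ≤ h n x := fun n x => self_le_Ginf hΓ (hf n) x
  have hhlim : ∀ x, Tendsto (fun n => h n x) atTop (𝓝 (φ x)) := fun x =>
    tendsto_of_tendsto_of_tendsto_of_le_of_le (approx_tendsto hC hlsc x) tendsto_const_nhds
      (fun n => hhge n x) (fun n => hhle n x)
  have hhabs : ∀ n x, |h n x| ≤ C := by
    intro n x
    rw [abs_le]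
    constructor
    · refine le_trans ?_ (hhge n x)
      apply le_approx
      intro w
      have h1 := (abs_le.1 (hC w)).1
      have h2 : (0 : ℝ) ≤ n * dist x w := by positivity
      linarith
    · exact (hhle n x).trans ((le_abs_self _).trans (hC x))
  have hstrict : ∀ x, ∀ p ∈ Cset Γ x, p ≠ diracProba x →
      ∃ n, ∫ z, h n z ∂(p : Measure X) < h n x := by
    intro x p hp hne
    by_contra hcon
    push Not at hcon
    apply hne
    have heq : ∀ n, ∫ z, h n z ∂(p : Measure X) = h n x := fun n =>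
      le_antisymm (Cset_int_Ginf hΓ hp (hf n)) (hcon n)
    have hlim : Tendsto (fun n => ∫ z, h n z ∂(p : Measure X)) atTop
        (𝓝 (∫ z, φ z ∂(p : Measure X))) := by
      apply tendsto_integral_of_dominated_convergence (fun _ => C)
      · intro n; exact (hh n).continuous.aestronglyMeasurable
      · exact integrable_const C
      · intro n; exact Eventually.of_forall (hhabs n)
      · exact Eventually.of_forall hhlim
    simp_rw [heq] at hlim
    have hval : ∫ z, φ z ∂(p : Measure X) = φ x := tendsto_nhds_unique hlim (hhlim x)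
    have hmem : p ∈ {p ∈ reach Γ x | ∀ q ∈ reach Γ x,
        ∫ z, φ z ∂(q : Measure X) ≤ ∫ z, φ z ∂(p : Measure X)} :=
      ⟨Cset_subset_reach hΓ x hp, fun q hq => by rw [hval]; exact hφle x q hq⟩
    rw [harg x] at hmem
    exact hmem
  -- compactness
  let K : Set (X × ProbabilityMeasure X) :=
    {z | z.2 ∈ Cset Γ z.1} ∩ {z | η ≤ ∫ w, dist z.1 w ∂(z.2 : Measure X)}
  have hcont : Continuous fun z : X × ProbabilityMeasure X => ∫ w, dist z.1 w ∂(z.2 : Measure X) :=
    continuous_int_joint (F := fun (z : X × ProbabilityMeasure X) (w : X) => dist z.1 w)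
      (by fun_prop) continuous_snd
  have hK : IsCompact K :=
    ((isClosed_Cset hΓ).inter (isClosed_le continuous_const hcont)).isCompact
  let V : ℕ → Set (X × ProbabilityMeasure X) := fun n =>
    {z | ∫ w, h n w ∂(z.2 : Measure X) < h n z.1}
  have hV : ∀ n, IsOpen (V n) := fun n =>
    isOpen_lt ((continuous_int (hh n).continuous).comp continuous_snd)
      ((hh n).continuous.comp continuous_fst)
  have hcov : K ⊆ ⋃ n, V n := by
    rintro ⟨x, p⟩ ⟨hp, hd⟩
    have hne : p ≠ diracProba x := by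
      rintro rfl
      have hd' : η ≤ ∫ w, dist x w ∂((diracProba x : ProbabilityMeasure X) : Measure X) := hd
      rw [int_dirac, dist_self] at hd'
      linarith
    obtain ⟨n, hn⟩ := hstrict x p hp hne
    exact mem_iUnion.2 ⟨n, hn⟩
  obtain ⟨t, ht⟩ := hK.elim_finite_subcover V hV hcov
  let Φ : X → ℝ := fun z => ∑ n ∈ t, h n z
  have hΦint : ∀ p : ProbabilityMeasure X, ∫ z, Φ z ∂(p : Measure X) =
      ∑ n ∈ t, ∫ z, h n z ∂(p : Measure X) := by
    intro p
    exact integral_finsetSum t fun n _ => integrable_cont (hh n).continuous _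
  have hΦlip : LipschitzWith (∑ n ∈ t, (n : ℝ≥0)) Φ := by
    apply lip_of
    intro x y
    simp only [Φ]
    push_cast
    rw [Finset.sum_mul, ← Finset.sum_add_distrib]
    apply Finset.sum_le_sum
    intro n _
    have := lip_le (hh n) x y
    simpa using this
  have hΦle : ∀ x, ∀ p ∈ Cset Γ x, ∫ z, Φ z ∂(p : Measure X) ≤ Φ x := by
    intro x p hp
    rw [hΦint]
    exact Finset.sum_le_sum fun n _ => Cset_int_Ginf hΓ hp (hf n)
  have hΦlt : ∀ z ∈ K, 0 < Φ z.1 - ∫ w, Φ w ∂(z.2 : Measure X) := by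
    rintro ⟨x, p⟩ hz
    have hp : p ∈ Cset Γ x := hz.1
    obtain ⟨n, hn, hlt⟩ := mem_iUnion₂.1 (ht hz)
    have : ∫ w, Φ w ∂(p : Measure X) < Φ x := by
      rw [hΦint]
      exact Finset.sum_lt_sum (fun m _ => Cset_int_Ginf hΓ hp (hf m)) ⟨n, hn, hlt⟩
    simpa using this
  have hΦcont : Continuous fun z : X × ProbabilityMeasure X =>
      Φ z.1 - ∫ w, Φ w ∂(z.2 : Measure X) :=
    (hΦlip.continuous.comp continuous_fst).sub
      ((continuous_int hΦlip.continuous).comp continuous_snd)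
  refine ⟨Φ, _, hΦlip, ?_⟩
  rcases K.eq_empty_or_nonempty with hKe | hKne
  · refine ⟨1, one_pos, fun x p hp => ⟨hΦle x p hp, fun hd => ?_⟩⟩
    have : (x, p) ∈ K := ⟨hp, hd⟩
    rw [hKe] at this
    exact absurd this (notMem_empty _)
  · obtain ⟨z₀, hz₀, hmin⟩ := hK.exists_isMinOn hKne hΦcont.continuousOn
    refine ⟨Φ z₀.1 - ∫ w, Φ w ∂(z₀.2 : Measure X), hΦlt z₀ hz₀, fun x p hp =>
      ⟨hΦle x p hp, fun hd => ?_⟩⟩
    have h1 : (x, p) ∈ K := ⟨hp, hd⟩
    have h2 : Φ z₀.1 - ∫ w, Φ w ∂(z₀.2 : Measure X) ≤ Φ x - ∫ w, Φ w ∂(p : Measure X) := hmin h1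
    linarith

end House

end GamblingGame
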