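import Pool.Agent.Helper98.Gamble.Strict

open MeasureTheory Set Filter Topology
open scoped NNReal BoundedContinuousFunction

set_option linter.unusedSectionVars false

namespace GamblingGame

universe u v w

section Two

variable {X : Type u} [MetricSpace X] [CompactSpace X] [MeasurableSpace X] [BorelSpace X]
variable {Y : Type v} [MetricSpace Y] [CompactSpace Y] [MeasurableSpace Y] [BorelSpace Y]

/-- Lipschitz in both variables, for the sum distance. -/
def Lip2 (L : ℝ≥0) (f : X → Y → ℝ) : Prop :=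
  ∀ x x' y y', f x y ≤ f x' y' + L * (dist x x' + dist y y')

/-- The swapped game. -/
def sw (f : X → Y → ℝ) : Y → X → ℝ := fun y x => -f x y

lemma Lip2.left {L : ℝ≥0} {f : X → Y → ℝ} (h : Lip2 L f) (y : Y) :
    LipschitzWith L fun x => f x y :=
  lip_of fun x x' => by simpa using h x x' y y

lemma Lip2.right {L : ℝ≥0} {f : X → Y → ℝ} (h : Lip2 L f) (x : X) :
    LipschitzWith L fun y => f x y :=
  lip_of fun y y' => by simpa using h x x y y'

lemma Lip2.sw {L : ℝ≥0} {f : X → Y → ℝ} (h : Lip2 L f) : Lip2 L (sw f) := by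
  intro y y' x x'
  have := h x' x y' y
  rw [dist_comm x' x, dist_comm y' y] at this
  simp only [GamblingGame.sw]
  linarith

lemma Lip2.cont {L : ℝ≥0} {f : X → Y → ℝ} (h : Lip2 L f) : Continuous (Function.uncurry f) := by
  have : LipschitzWith (2 * L) (Function.uncurry f) := by
    apply lip_of
    rintro ⟨x, y⟩ ⟨x', y'⟩
    have h1 := h x x' y y'
    have h2 : dist x x' ≤ dist (x, y) (x', y') := by
      rw [Prod.dist_eq]; exact le_max_left _ _
    have h3 : dist y y' ≤ dist (x, y) (x', y') := by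
      rw [Prod.dist_eq]; exact le_max_right _ _
    have h4 : (L : ℝ) * (dist x x' + dist y y') ≤ L * (2 * dist (x, y) (x', y')) :=
      mul_le_mul_of_nonneg_left (by linarith) L.2
    simp only [Function.uncurry]
    push_cast
    linarith
  exact this.continuous

lemma Lip2.int_left {L : ℝ≥0} {f : X → Y → ℝ} (h : Lip2 L f) (p : ProbabilityMeasure X) :
    LipschitzWith L fun y => ∫ x, f x y ∂(p : Measure X) := by
  apply lip_of
  intro y y'
  exact int_le_add (h.left y).continuous (h.left y').continuous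
    (fun x => by simpa using h x x y y') _

lemma Lip2.int_right {L : ℝ≥0} {f : X → Y → ℝ} (h : Lip2 L f) (q : ProbabilityMeasure Y) :
    LipschitzWith L fun x => ∫ y, f x y ∂(q : Measure Y) := by
  apply lip_of
  intro x x'
  exact int_le_add (h.right x).continuous (h.right x').continuous
    (fun y => by simpa using h x x' y y) _

lemma Lip2.fubini {L : ℝ≥0} {f : X → Y → ℝ} (h : Lip2 L f) (p : ProbabilityMeasure X)
    (q : ProbabilityMeasure Y) :
    ∫ x, ∫ y, f x y ∂(q : Measure Y) ∂(p : Measure X) =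
      ∫ y, ∫ x, f x y ∂(p : Measure X) ∂(q : Measure Y) :=
  integral_integral_swap (integrable_cont h.cont _)

/-- The lower value operator. -/
noncomputable def valOp (Γ : X → Set (ProbabilityMeasure X)) (Λ : Y → Set (ProbabilityMeasure Y))
    (f : X → Y → ℝ) (x : X) (y : Y) : ℝ :=
  ⨆ p : Γ x, -(G Λ (fun w => -∫ z, f z w ∂((p : ProbabilityMeasure X) : Measure X)) y)

variable {Γ : X → Set (ProbabilityMeasure X)} {Λ : Y → Set (ProbabilityMeasure Y)}
variable (hΓ : IsHouse Γ) (hΛ : IsHouse Λ)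

include hΛ

lemma neg_G_attained {L : ℝ≥0} {f : X → Y → ℝ} (h : Lip2 L f) (p : ProbabilityMeasure X)
    (y : Y) : ∃ q ∈ Λ y, -(G Λ (fun w => -∫ z, f z w ∂(p : Measure X)) y) =
      ∫ z, ∫ w, f z w ∂(q : Measure Y) ∂(p : Measure X) := by
  obtain ⟨q, hq, e, -⟩ := exists_G hΛ (h.int_left p).continuous.neg y
  refine ⟨q, hq, ?_⟩
  have e' : ∫ w, -∫ z, f z w ∂(p : Measure X) ∂(q : Measure Y) =
    G Λ (fun w => -∫ z, f z w ∂(p : Measure X)) y := e
  rw [← e', integral_neg, neg_neg, h.fubini]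

lemma neg_G_le {L : ℝ≥0} {f : X → Y → ℝ} (h : Lip2 L f) (p : ProbabilityMeasure X)
    {y : Y} {q : ProbabilityMeasure Y} (hq : q ∈ Λ y) :
    -(G Λ (fun w => -∫ z, f z w ∂(p : Measure X)) y) ≤
      ∫ z, ∫ w, f z w ∂(q : Measure Y) ∂(p : Measure X) := by
  have := le_G hΛ (f := fun w => -∫ z, f z w ∂(p : Measure X)) (h.int_left p).continuous.neg hq
  rw [integral_neg, ← h.fubini] at this
  linarith

include hΓ

lemma valOp_bdd {L : ℝ≥0} {f : X → Y → ℝ} (h : Lip2 L f) (x : X) (y : Y) :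
    BddAbove (range fun p : Γ x =>
      -(G Λ (fun w => -∫ z, f z w ∂((p : ProbabilityMeasure X) : Measure X)) y)) := by
  obtain ⟨C, hC⟩ := exists_bound h.cont
  refine ⟨C, ?_⟩
  rintro _ ⟨p, rfl⟩
  have := neg_G_le hΛ h (p : ProbabilityMeasure X) (hΛ.leavable y)
  refine this.trans ?_
  simp_rw [int_dirac]
  exact int_le_const (h.left y).continuous (fun z => (le_abs_self _).trans (hC (z, y))) _

lemma valOp_ge {L : ℝ≥0} {f : X → Y → ℝ} (h : Lip2 L f) {x : X} (y : Y)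
    {p : ProbabilityMeasure X} (hp : p ∈ Γ x) :
    ∃ q ∈ Λ y, ∫ z, ∫ w, f z w ∂(q : Measure Y) ∂(p : Measure X) ≤ valOp Γ Λ f x y := by
  obtain ⟨q, hq, e⟩ := neg_G_attained hΛ h p y
  refine ⟨q, hq, ?_⟩
  rw [← e]
  exact le_ciSup (valOp_bdd hΓ hΛ h x y) ⟨p, hp⟩

lemma valOp_le {L : ℝ≥0} {f : X → Y → ℝ} (h : Lip2 L f) (x : X) {y : Y}
    {q : ProbabilityMeasure Y} (hq : q ∈ Λ y) :
    ∃ p ∈ Γ x, valOp Γ Λ f x y ≤ ∫ z, ∫ w, f z w ∂(q : Measure Y) ∂(p : Measure X) := by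
  obtain ⟨p, hp, -, hmax⟩ := exists_G hΓ (h.int_right q).continuous x
  obtain ⟨p, hp, e, hmax⟩ := exists_G hΓ (h.int_right q).continuous x
  refine ⟨p, hp, ?_⟩
  have : Nonempty (Γ x) := ⟨⟨p, hp⟩⟩
  apply ciSup_le
  rintro ⟨p', hp'⟩
  refine (neg_G_le hΛ h p' hq).trans ?_
  rw [e]
  exact hmax p' hp'

lemma valOp_le_add {L M : ℝ≥0} {f g : X → Y → ℝ} (hf : Lip2 L f) (hg : Lip2 M g) {c : ℝ}
    {x x' : X} {y y' : Y}
    (H : ∀ p ∈ Γ x, ∃ p' ∈ Γ x', ∀ q' ∈ Λ y', ∃ q ∈ Λ y,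
      ∫ z, ∫ w, f z w ∂(q : Measure Y) ∂(p : Measure X) ≤
        ∫ z, ∫ w, g z w ∂(q' : Measure Y) ∂(p' : Measure X) + c) :
    valOp Γ Λ f x y ≤ valOp Γ Λ g x' y' + c := by
  have : Nonempty (Γ x) := ⟨⟨_, hΓ.leavable x⟩⟩
  apply ciSup_le
  rintro ⟨p, hp⟩
  obtain ⟨p', hp', hH⟩ := H p hp
  obtain ⟨q', hq', hle⟩ := neg_G_attained hΛ hg p' y'
  obtain ⟨q, hq, h1⟩ := hH q' hq'
  have h2 := neg_G_le hΛ hf p hq
  have h3 : -(G Λ (fun w => -∫ z, g z w ∂(p' : Measure X)) y') ≤ valOp Γ Λ g x' y' :=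
    le_ciSup (valOp_bdd hΓ hΛ hg x' y') ⟨p', hp'⟩
  rw [hle] at h3
  linarith

lemma valOp_lip {L : ℝ≥0} {f : X → Y → ℝ} (h : Lip2 L f) : Lip2 L (valOp Γ Λ f) := by
  intro x x' y y'
  apply valOp_le_add hΓ hΛ h h
  intro p hp
  obtain ⟨p', hp', hKR⟩ := hΓ.nonexpansive x x' p hp
  refine ⟨p', hp', fun q' hq' => ?_⟩
  obtain ⟨q, hq, hKR'⟩ := hΛ.nonexpansive y' y q' hq'
  refine ⟨q, hq, ?_⟩
  have h1 := (abs_le.1 (hKR.lip (h.int_right q'))).2
  have h2 := (abs_le.1 (hKR'.lip (h.int_left p))).1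
  rw [← h.fubini, ← h.fubini] at h2
  rw [dist_comm y' y] at h2
  rw [mul_add]
  linarith

lemma valOp_mono_add {L M : ℝ≥0} {f g : X → Y → ℝ} (hf : Lip2 L f) (hg : Lip2 M g) {c : ℝ}
    (hfg : ∀ x y, f x y ≤ g x y + c) (x : X) (y : Y) :
    valOp Γ Λ f x y ≤ valOp Γ Λ g x y + c := by
  apply valOp_le_add hΓ hΛ hf hg
  intro p hp
  refine ⟨p, hp, fun q hq => ⟨q, hq, ?_⟩⟩
  apply int_le_add (hf.int_right q).continuous (hg.int_right q).continuous
  intro z
  exact int_le_add (hf.right z).continuous (hg.right z).continuous (hfg z) _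

lemma valOp_abs {L : ℝ≥0} {f : X → Y → ℝ} (h : Lip2 L f) {C : ℝ} (hC : ∀ x y, |f x y| ≤ C)
    (x : X) (y : Y) : |valOp Γ Λ f x y| ≤ C := by
  rw [abs_le]
  constructor
  · obtain ⟨q, hq, hle⟩ := valOp_ge hΓ hΛ h y (hΓ.leavable x)
    refine le_trans ?_ hle
    exact const_le_int (h.int_right q).continuous (fun z =>
      const_le_int (h.right z).continuous (fun w => (abs_le.1 (hC z w)).1) _) _
  · obtain ⟨p, hp, hle⟩ := valOp_le hΓ hΛ h x (hΛ.leavable y)
    refine hle.trans ?_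
    exact int_le_const (h.int_right _).continuous (fun z =>
      int_le_const (h.right z).continuous (fun w => (abs_le.1 (hC z w)).2) _) _

end Two

end GamblingGame
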